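import Pool.Agent.W_4481e3_q42.Apol

/-!
Apollonius traps which are uniform in a cell of the parameter `e = ε ^ 2`, also for `ε → 0`.

With `T = Im ε / Re ε` and `q = |ε| ^ 2 = |e|` the Apollonius condition over the base `0` reads
`0 < gA T q X Y`, `Z = X + i Y`; for fixed `Z` the function `gA` is concave in `T` and affine in
`q`, so on a rectangle `[T₁, T₂] × [q₁, q₂]` it is enough to check the four corners.  Each corner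
condition is a disc: centre `(1 / (1 + T ^ 2) + q) / 2 * (1 + T i)`.
-/

open Filter Topology

namespace Pool.Agent.W_4481e3_q42

theorem pos_of_mul_pos_of_nonneg_left' {a b : ℝ} (h : 0 < a * b) (ha : 0 < a) : 0 < b := by
  by_contra hb
  have := mul_nonpos_of_nonneg_of_nonpos ha.le (not_lt.1 hb)
  linarith

theorem le_of_sq_le_sq_h {a b : ℝ} (h : a ^ 2 ≤ b ^ 2) (hb : 0 ≤ b) : a ≤ b :=
  (abs_le_of_sq_le_sq' h hb).2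

/-- the Apollonius gap -/
def gA (T q X Y : ℝ) : ℝ :=
  (X + T * Y) * (1 + q * (1 + T ^ 2)) - (q + (X ^ 2 + Y ^ 2)) * (1 + T ^ 2)

theorem gA_T {T₁ T₂ T q X Y : ℝ} (hq0 : 0 ≤ q) (hq : q ≤ 1 / 4) (h1 : 0 ≤ T₁) (hT1 : T₁ ≤ T)
    (hT2 : T ≤ T₂) (h2 : T₂ ≤ 1) (hg1 : 0 < gA T₁ q X Y) (hg2 : 0 < gA T₂ q X Y) :
    0 < gA T q X Y := by
  rcases eq_or_lt_of_le hT1 with rfl | hlt
  · exact hg1
  rcases eq_or_lt_of_le hT2 with rfl | hlt2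
  · exact hg2
  have hc : q * X - (q + (X ^ 2 + Y ^ 2)) + q * Y * (T₁ + T + T₂) ≤ 0 := by
    have hs0 : 0 ≤ T₁ + T + T₂ := by linarith
    have hs3 : T₁ + T + T₂ ≤ 3 := by linarith
    rcases le_total 0 Y with hY | hY
    · have h3 : q * Y * (T₁ + T + T₂) ≤ q * Y * 3 := by
        apply mul_le_mul_of_nonneg_left hs3; positivity
      nlinarith [sq_nonneg (X - q / 2), sq_nonneg (Y - 3 * q / 2)]
    · have h3 : q * Y * (T₁ + T + T₂) ≤ 0 := by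
        apply mul_nonpos_of_nonpos_of_nonneg _ hs0
        exact mul_nonpos_of_nonneg_of_nonpos hq0 hY
      nlinarith [sq_nonneg (X - q / 2), sq_nonneg Y]
  have key : (T₂ - T₁) * gA T q X Y = (T₂ - T) * gA T₁ q X Y + (T - T₁) * gA T₂ q X Y +
      (T - T₁) * (T₂ - T) * (T₂ - T₁) *
        (-(q * X - (q + (X ^ 2 + Y ^ 2)) + q * Y * (T₁ + T + T₂))) := by
    simp only [gA]; ring
  have ha : 0 < T₂ - T₁ := by linarith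
  have hb : 0 < T₂ - T := by linarith
  have hd : 0 < T - T₁ := by linarith
  have : 0 < (T₂ - T₁) * gA T q X Y := by
    rw [key]
    have e1 : 0 ≤ (T - T₁) * (T₂ - T) * (T₂ - T₁) *
        (-(q * X - (q + (X ^ 2 + Y ^ 2)) + q * Y * (T₁ + T + T₂))) := by
      apply mul_nonneg (by positivity); linarith
    positivity
  exact pos_of_mul_pos_of_nonneg_left' this ha

theorem gA_q {T q₁ q₂ q X Y : ℝ} (hq1 : q₁ ≤ q) (hq2 : q ≤ q₂) (hg1 : 0 < gA T q₁ X Y)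
    (hg2 : 0 < gA T q₂ X Y) : 0 < gA T q X Y := by
  rcases eq_or_lt_of_le hq1 with rfl | hlt
  · exact hg1
  have ha : 0 < q₂ - q₁ := by linarith
  have key : (q₂ - q₁) * gA T q X Y = (q₂ - q) * gA T q₁ X Y + (q - q₁) * gA T q₂ X Y := by
    simp only [gA]; ring
  have hb : 0 ≤ q₂ - q := by linarith
  have hd : 0 < q - q₁ := by linarith
  have : 0 < (q₂ - q₁) * gA T q X Y := by
    rw [key]
    positivity
  exact pos_of_mul_pos_of_nonneg_left' this ha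

/-- the four corners suffice -/
theorem gA_box {T₁ T₂ T q₁ q₂ q X Y : ℝ} (hq0 : 0 ≤ q₁) (hq1 : q₁ ≤ q) (hq2 : q ≤ q₂)
    (hq : q₂ ≤ 1 / 4) (h1 : 0 ≤ T₁) (hT1 : T₁ ≤ T) (hT2 : T ≤ T₂) (h2 : T₂ ≤ 1)
    (h11 : 0 < gA T₁ q₁ X Y) (h12 : 0 < gA T₁ q₂ X Y) (h21 : 0 < gA T₂ q₁ X Y)
    (h22 : 0 < gA T₂ q₂ X Y) : 0 < gA T q X Y :=
  gA_q hq1 hq2 (gA_T hq0 (by linarith) h1 hT1 hT2 h2 h11 h21)
    (gA_T (by linarith) hq h1 hT1 hT2 h2 h12 h22)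

/-- the closed disc `|Z - C| ≤ R` lies in the (open) Apollonius disc of the corner `(T, q)` -/
def ApD (T q : ℝ) (C : ℂ) (R : ℝ) : Prop := ∀ Z : ℂ, ‖Z - C‖ ≤ R → 0 < gA T q Z.re Z.im

theorem ApD.of_num {T q R G : ℝ} {C : ℂ} (hG0 : 0 ≤ G)
    (hG : (1 + q * (1 + T ^ 2) - 2 * C.re * (1 + T ^ 2)) ^ 2 +
      (T * (1 + q * (1 + T ^ 2)) - 2 * C.im * (1 + T ^ 2)) ^ 2 ≤ G ^ 2)
    (h : (1 + T ^ 2) * R ^ 2 + R * G < gA T q C.re C.im) : ApD T q C R := by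
  intro Z hZ
  have hR : 0 ≤ R := (norm_nonneg _).trans hZ
  have hd : (Z.re - C.re) ^ 2 + (Z.im - C.im) ^ 2 ≤ R ^ 2 := by
    have h1 : ‖Z - C‖ ^ 2 ≤ R ^ 2 := by gcongr
    rw [Complex.sq_norm, Complex.normSq_apply, Complex.sub_re, Complex.sub_im] at h1
    linarith
  set p := Z.re - C.re with hp
  set s := Z.im - C.im with hs
  set g1 := 1 + q * (1 + T ^ 2) - 2 * C.re * (1 + T ^ 2) with hg1
  set g2 := T * (1 + q * (1 + T ^ 2)) - 2 * C.im * (1 + T ^ 2) with hg2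
  have h1 : (g1 * p + g2 * s) ^ 2 ≤ (R * G) ^ 2 := by
    calc (g1 * p + g2 * s) ^ 2 ≤ (g1 ^ 2 + g2 ^ 2) * (p ^ 2 + s ^ 2) := cs_aux _ _ _ _
      _ ≤ G ^ 2 * R ^ 2 := by gcongr
      _ = _ := by ring
  have h2 : -(R * G) ≤ g1 * p + g2 * s := (abs_le.1 (abs_le_of_sq_le_sq h1 (by positivity))).1
  have h3 : (1 + T ^ 2) * (p ^ 2 + s ^ 2) ≤ (1 + T ^ 2) * R ^ 2 := by gcongr
  have e1 : gA T q Z.re Z.im = gA T q C.re C.im + (g1 * p + g2 * s) - (1 + T ^ 2) * (p ^ 2 + s ^ 2) := by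
    rw [hg1, hg2, hp, hs]; simp only [gA]; ring
  rw [e1]; linarith

/-- exact radius version: any centre `C` with `|2 C - N| ≤ δ` -/
theorem ApD.of_center {T q R ν δ : ℝ} {C N : ℂ} (hν : ν * (1 + T ^ 2) = 1 + q * (1 + T ^ 2))
    (hN : N = ⟨ν, T * ν⟩) (hδ : ‖2 * C - N‖ ≤ 2 * δ)
    (h : (R + δ) ^ 2 + q < ν ^ 2 * (1 + T ^ 2) / 4) : ApD T q C R := by
  intro Z hZ
  have h1 : ‖Z - N / 2‖ ≤ R + δ := by
    have e1 : Z - N / 2 = (Z - C) + (2 * C - N) / 2 := by ring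
    rw [e1]
    refine (norm_add_le _ _).trans ?_
    rw [norm_div, Complex.norm_ofNat]
    linarith
  have h2 : ‖Z - N / 2‖ ^ 2 ≤ (R + δ) ^ 2 := by gcongr
  rw [Complex.sq_norm, Complex.normSq_apply] at h2
  have e2 : (Z - N / 2).re = Z.re - ν / 2 := by rw [hN]; simp
  have e3 : (Z - N / 2).im = Z.im - T * ν / 2 := by rw [hN]; simp
  rw [e2, e3] at h2
  have h3 : Z.re ^ 2 + Z.im ^ 2 + q < ν * (Z.re + T * Z.im) := by nlinarith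
  have hT : 0 < 1 + T ^ 2 := by positivity
  have h4 : (Z.re ^ 2 + Z.im ^ 2 + q) * (1 + T ^ 2) < ν * (Z.re + T * Z.im) * (1 + T ^ 2) := by
    gcongr
  have e4 : ν * (Z.re + T * Z.im) * (1 + T ^ 2) = (Z.re + T * Z.im) * (1 + q * (1 + T ^ 2)) := by
    rw [← hν]; ring
  simp only [gA]
  rw [e4] at h4
  linarith

/-- the cell of parameters: `|ε| ^ 2 ∈ [q₁, q₂]`, `tan (arg ε) ∈ [T₁, T₂]` -/
structure EBox (ε : ℂ) (q₁ q₂ T₁ T₂ : ℝ) : Prop where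
  q1 : q₁ ≤ ε.re ^ 2 + ε.im ^ 2
  q2 : ε.re ^ 2 + ε.im ^ 2 ≤ q₂
  T1 : T₁ * ε.re ≤ ε.im
  T2 : ε.im ≤ T₂ * ε.re

/-- from a rectangle of `e = ε ^ 2` -/
theorem EBox.of_rect {ε : ℂ} (hε : Adm ε) {x₁ x₂ y₁ y₂ q₁ q₂ T₁ T₂ : ℝ} (hx1 : x₁ ≤ (ε ^ 2).re)
    (hx2 : (ε ^ 2).re ≤ x₂) (hy1 : y₁ ≤ (ε ^ 2).im) (hy2 : (ε ^ 2).im ≤ y₂) (h0x : 0 ≤ x₁)
    (h0y : 0 ≤ y₁) (h0q : 0 ≤ q₂) (hq1 : q₁ ^ 2 ≤ x₁ ^ 2 + y₁ ^ 2)
    (hq2 : x₂ ^ 2 + y₂ ^ 2 ≤ q₂ ^ 2) (h0T : 0 ≤ T₁) (hT1 : T₁ ≤ 1) (h0T2 : 0 ≤ T₂) (hT2 : T₂ ≤ 1)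
    (h1 : 2 * T₁ * x₂ ≤ y₁ * (1 - T₁ ^ 2)) (h2 : y₂ * (1 - T₂ ^ 2) ≤ 2 * T₂ * x₁) :
    EBox ε q₁ q₂ T₁ T₂ := by
  have ha := hε.re
  have hb := hε.im
  have ex : (ε ^ 2).re = ε.re ^ 2 - ε.im ^ 2 := by rw [pow_two, Complex.mul_re]; ring
  have ey : (ε ^ 2).im = 2 * ε.re * ε.im := by rw [pow_two, Complex.mul_im]; ring
  rw [ex] at hx1 hx2
  rw [ey] at hy1 hy2
  have en : (ε.re ^ 2 + ε.im ^ 2) ^ 2 = (ε.re ^ 2 - ε.im ^ 2) ^ 2 + (2 * ε.re * ε.im) ^ 2 := by ring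
  have hn : 0 ≤ ε.re ^ 2 + ε.im ^ 2 := by positivity
  have hT1sq : 0 ≤ 1 - T₁ ^ 2 := by nlinarith
  have hT2sq : 0 ≤ 1 - T₂ ^ 2 := by nlinarith
  refine ⟨?_, ?_, ?_, ?_⟩
  · refine le_of_sq_le_sq_h ?_ hn
    rw [en]
    have h3 : x₁ ^ 2 ≤ (ε.re ^ 2 - ε.im ^ 2) ^ 2 := by gcongr
    have h4 : y₁ ^ 2 ≤ (2 * ε.re * ε.im) ^ 2 := by gcongr
    linarith
  · refine le_of_sq_le_sq_h ?_ h0q
    rw [en]
    have h3 : (ε.re ^ 2 - ε.im ^ 2) ^ 2 ≤ x₂ ^ 2 := by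
      apply pow_le_pow_left₀ (by linarith) hx2
    have h4 : (2 * ε.re * ε.im) ^ 2 ≤ y₂ ^ 2 := by
      apply pow_le_pow_left₀ (by linarith) hy2
    linarith
  · -- `(b - T₁ a) (a + T₁ b) ≥ 0`
    have h3 : 2 * T₁ * (ε.re ^ 2 - ε.im ^ 2) ≤ 2 * T₁ * x₂ := by gcongr
    have h4 : y₁ * (1 - T₁ ^ 2) ≤ 2 * ε.re * ε.im * (1 - T₁ ^ 2) := by gcongr
    have h5 : 0 ≤ (ε.im - T₁ * ε.re) * (ε.re + T₁ * ε.im) := by nlinarith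
    have h6 : 0 < ε.re + T₁ * ε.im := by positivity
    have h7 : 0 ≤ ε.im - T₁ * ε.re := nonneg_of_mul_nonneg_left h5 h6
    linarith
  · have h3 : 2 * T₂ * x₁ ≤ 2 * T₂ * (ε.re ^ 2 - ε.im ^ 2) := by gcongr
    have h4 : 2 * ε.re * ε.im * (1 - T₂ ^ 2) ≤ y₂ * (1 - T₂ ^ 2) := by gcongr
    have h5 : 0 ≤ (T₂ * ε.re - ε.im) * (ε.re + T₂ * ε.im) := by nlinarith
    have h6 : 0 < ε.re + T₂ * ε.im := by positivity
    have h7 : 0 ≤ T₂ * ε.re - ε.im := nonneg_of_mul_nonneg_left h5 h6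
    linarith

/-- the Apollonius inequality from the gap -/
theorem apol_of_gA {ε : ℂ} (hε : 0 < ε.re) {X Y : ℝ}
    (h : 0 < gA (ε.im / ε.re) (ε.re ^ 2 + ε.im ^ 2) X Y) :
    (ε.re ^ 2 + ε.im ^ 2) * ε.re * (X ^ 2 + Y ^ 2 + (ε.re ^ 2 + ε.im ^ 2)) <
      (ε.re ^ 2 + (ε.re ^ 2 + ε.im ^ 2) ^ 2) * (ε.re * X + ε.im * Y) := by
  obtain ⟨T, hT⟩ : ∃ T, T = ε.im / ε.re := ⟨_, rfl⟩
  have hb : ε.im = T * ε.re := by rw [hT]; field_simp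
  rw [← hT, hb] at h
  rw [hb]
  set a := ε.re
  have e1 : (a ^ 2 + (a ^ 2 + (T * a) ^ 2) ^ 2) * (a * X + T * a * Y) -
      (a ^ 2 + (T * a) ^ 2) * a * (X ^ 2 + Y ^ 2 + (a ^ 2 + (T * a) ^ 2)) =
      a ^ 3 * gA T (a ^ 2 + (T * a) ^ 2) X Y := by
    simp only [gA]; ring
  have h2 : 0 < a ^ 3 * gA T (a ^ 2 + (T * a) ^ 2) X Y := by positivity
  linarith

/-- **uniform dead ball over the base `0`** -/
theorem dead_E0 {ε : ℂ} (hε : Adm ε) {q₁ q₂ T₁ T₂ : ℝ} (hE : EBox ε q₁ q₂ T₁ T₂) (h0 : 0 ≤ q₁)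
    (h4 : q₂ ≤ 1 / 4) (hT0 : 0 ≤ T₁) (hT1 : T₂ ≤ 1) {x : ℝ} {n : ℤ} (hx : x = n) {v : ℂ} {r : ℝ}
    (h11 : ApD T₁ q₁ v r) (h12 : ApD T₁ q₂ v r) (h21 : ApD T₂ q₁ v r) (h22 : ApD T₂ q₂ v r) :
    Dead ε x v r := by
  intro Z hZ
  refine not_alive_apol0 hε hx (apol_of_gA hε.re ?_)
  have hT : T₁ ≤ ε.im / ε.re := by rw [le_div_iff₀ hε.re]; exact hE.T1
  have hT' : ε.im / ε.re ≤ T₂ := by rw [div_le_iff₀ hε.re]; exact hE.T2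
  exact gA_box h0 hE.q1 hE.q2 h4 hT0 hT hT' hT1 (h11 Z hZ) (h12 Z hZ) (h21 Z hZ) (h22 Z hZ)

/-- **uniform dead ball over the base `1 / 3`**: ball `|Z + 2 K| ≤ 2 r` -/
theorem dead_E3 {ε : ℂ} (hε : Adm ε) {q₁ q₂ T₁ T₂ : ℝ} (hE : EBox ε q₁ q₂ T₁ T₂) (h0 : 0 ≤ q₁)
    (h4 : q₂ ≤ 1 / 4) (hT0 : 0 ≤ T₁) (hT1 : T₂ ≤ 1) {x : ℝ} {q : ℤ} (hx : 3 * x = q)
    (hq : ¬ (3 ∣ q)) {K : ℂ} {r : ℝ}
    (h11 : ApD T₁ (q₁ / 4) K r) (h12 : ApD T₁ (q₂ / 4) K r) (h21 : ApD T₂ (q₁ / 4) K r)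
    (h22 : ApD T₂ (q₂ / 4) K r) : Dead ε x (-2 * K) (2 * r) := by
  intro Z hZ
  obtain ⟨η, hη⟩ : ∃ η, η = ε / 2 := ⟨_, rfl⟩
  have hA : Adm η := hη ▸ hε.half
  have hU : ‖-Z / 2 - K‖ ≤ r := by
    have e1 : -Z / 2 - K = -((Z - -2 * K) / 2) := by ring
    rw [e1, norm_neg, norm_div, Complex.norm_ofNat]; linarith
  refine not_alive_apol3 hε hx hq (U := -Z / 2) rfl hη (apol_of_gA hA.re ?_)
  have e1 : η.re = ε.re / 2 := by rw [hη]; simp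
  have e2 : η.im = ε.im / 2 := by rw [hη]; simp
  have e3 : η.im / η.re = ε.im / ε.re := by
    rw [e1, e2]; have := hε.re; field_simp
  have e4 : η.re ^ 2 + η.im ^ 2 = (ε.re ^ 2 + ε.im ^ 2) / 4 := by rw [e1, e2]; ring
  rw [e3, e4]
  have hT : T₁ ≤ ε.im / ε.re := by rw [le_div_iff₀ hε.re]; exact hE.T1
  have hT' : ε.im / ε.re ≤ T₂ := by rw [div_le_iff₀ hε.re]; exact hE.T2
  have hb1 := hE.q1
  have hb2 := hE.q2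
  exact gA_box (q₁ := q₁ / 4) (q₂ := q₂ / 4) (by linarith) (by linarith) (by linarith) (by linarith)
    hT0 hT hT' hT1 (h11 _ hU) (h12 _ hU) (h21 _ hU) (h22 _ hU)

theorem ApD.mono {T q : ℝ} {C C' : ℂ} {R R' : ℝ} (h : ApD T q C R) (hr : ‖C' - C‖ + R' ≤ R) :
    ApD T q C' R' := by
  intro Z hZ
  apply h
  have : Z - C = (Z - C') + (C' - C) := by ring
  rw [this]
  linarith [norm_add_le (Z - C') (C' - C)]

end Pool.Agent.W_4481e3_q42
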