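import Pool.Agent.W_4481e3_h58.HdrK
import Pool.Agent.W_4481e3_h58.ApolU
import Pool.Agent.W_4481e3_q12.SndA
import Pool.Agent.W_4481e3_q46.Cover

/-!
Soundness of the header of a parameter square.
-/

namespace Pool.Agent.W_4481e3_h58.Hdr

open Complex
open Pool.Agent.W_MP_4481e3_an.Ev (gd pt gd_true norm_pt_sq)
open Pool.Agent.W_4481e3_q12.Ev (ds ds_cast)
open Pool.Agent.W_4481e3_q42
open Pool.Agent.W_4481e3_q46 (InSq)

lemma oo_true {a b : Bool} : oo a b = true ↔ a = true ∨ b = true := by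
  cases a <;> simp [oo]

/-! ### discs -/

lemma ds_sq (x y : ℕ) : ((ds x y : ℕ) : ℝ) ^ 2 = ((x:ℝ) - y) ^ 2 := by rw [ds_cast, sq_abs]

lemma pt_sub_sq (A B P Q : ℕ) : ‖pt A B - pt P Q‖ ^ 2 =
    ((ds A P : ℕ) : ℝ) ^ 2 + ((ds B Q : ℕ) : ℝ) ^ 2 := by
  rw [ds_sq, ds_sq, Complex.sq_norm, Complex.normSq_apply, Complex.sub_re, Complex.sub_im]
  unfold pt
  simp only
  ring

lemma inD_sound {P Q R A B r : ℕ} (h : inD P Q R A B r = true) :
    r < R ∧ ‖pt A B - pt P Q‖ + r ≤ R := by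
  unfold inD inD2 at h
  rw [gd_true] at h
  have h1 := Nat.le_of_ble_eq_true h.1
  have h2 := Nat.le_of_ble_eq_true h.2
  simp only [Nat.add_eq, Nat.mul_eq, Nat.sub_eq] at h2
  have h1' : r < R := h1
  refine ⟨h1', ?_⟩
  have h3 : ((ds A P * ds A P + ds B Q * ds B Q : ℕ) : ℝ) ≤ (((R - r) * (R - r) : ℕ) : ℝ) := by
    exact_mod_cast h2
  push_cast [Nat.cast_sub h1'.le] at h3
  have h4 : ‖pt A B - pt P Q‖ ^ 2 ≤ ((R:ℝ) - r) ^ 2 := by
    rw [pt_sub_sq]; linarith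
  have h5 : (0:ℝ) ≤ (R:ℝ) - r := by
    have : (r:ℝ) < R := by exact_mod_cast h1'
    linarith
  have h6 := le_of_sq_le_sq_h h4 h5
  linarith

lemma outD_sound {P Q R A B r : ℕ} (h : outD P Q R A B r = true) :
    (R:ℝ) + r ≤ ‖pt A B - pt P Q‖ := by
  unfold outD outD2 at h
  have h2 := Nat.le_of_ble_eq_true h
  simp only [Nat.add_eq, Nat.mul_eq] at h2
  have h3 : (((R + r) * (R + r) : ℕ) : ℝ) ≤ ((ds A P * ds A P + ds B Q * ds B Q : ℕ) : ℝ) := by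
    exact_mod_cast h2
  push_cast at h3
  have h4 : ((R:ℝ) + r) ^ 2 ≤ ‖pt A B - pt P Q‖ ^ 2 := by
    rw [pt_sub_sq]; linarith
  exact le_of_sq_le_sq_h h4 (norm_nonneg _)

/-- the point of the plane -/
noncomputable def pz (A B : ℕ) : ℂ := pt A B / 16777216

lemma n16 : ‖(16777216 : ℂ)‖ = 16777216 := by simp

lemma inD_pz {P Q R A B r : ℕ} (h : inD P Q R A B r = true) :
    ‖pz A B - pz P Q‖ + (r:ℝ) / 16777216 ≤ (R:ℝ) / 16777216 := by
  have h1 := (inD_sound h).2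
  have e1 : pz A B - pz P Q = (pt A B - pt P Q) / 16777216 := by unfold pz; ring
  rw [e1, norm_div, n16, ← add_div]
  exact div_le_div_of_nonneg_right h1 (by norm_num)

lemma outD_pz {P Q R A B r : ℕ} (h : outD P Q R A B r = true) :
    (R:ℝ) / 16777216 + (r:ℝ) / 16777216 ≤ ‖pz A B - pz P Q‖ := by
  have h1 := outD_sound h
  have e1 : pz A B - pz P Q = (pt A B - pt P Q) / 16777216 := by unfold pz; ring
  rw [e1, norm_div, n16, ← add_div]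
  exact div_le_div_of_nonneg_right h1 (by norm_num)

lemma pz_half : pz 545259520 536870912 = 1 / 2 := by
  unfold pz pt
  apply Complex.ext <;> norm_num

lemma pz_neg_one : pz 520093696 536870912 = -1 := by
  unfold pz pt
  apply Complex.ext <;> norm_num

/-! ### the corner discs -/

theorem cA_sound {t qs cx cy ρ G : ℕ} (h : cA t qs cx cy ρ G = true) :
    ApD ((t:ℝ) / 1024) ((qs:ℝ) / 67108864) ⟨(cx:ℝ) / 16777216, (cy:ℝ) / 16777216⟩
      ((ρ:ℝ) / 16777216) ∧ cx ≤ 16777216 ∧ cy ≤ 16777216 := by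
  unfold cA cA2 at h
  rw [gd_true, gd_true, gd_true] at h
  obtain ⟨hx, hy, h1, h2⟩ := h
  refine ⟨?_, Nat.le_of_ble_eq_true hx, Nat.le_of_ble_eq_true hy⟩
  have h1 := Nat.le_of_ble_eq_true h1
  have h2 := Nat.le_of_ble_eq_true h2
  simp only [Nat.add_eq, Nat.mul_eq, Nat.pow_eq] at h1 h2
  have h1r : (((1024 * (1048576 + t * t)) * (16777216 * qs + 4 * (cx * cx + cy * cy + ρ * ρ)) +
      4294967296 * ρ * G + 1 : ℕ) : ℝ) ≤
      (((1024 * cx + t * cy) * (70368744177664 + qs * (1048576 + t * t)) : ℕ) : ℝ) := by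
    exact_mod_cast h1
  have h2r : (((1024 * ds (70368744177664 + qs * (1048576 + t * t)) (8 * cx * (1048576 + t * t))) ^ 2 +
      (ds (t * (70368744177664 + qs * (1048576 + t * t))) (8192 * cy * (1048576 + t * t))) ^ 2 : ℕ) : ℝ) ≤
      (((4294967296 * G) ^ 2 : ℕ) : ℝ) := by exact_mod_cast h2
  rw [Nat.cast_add, Nat.cast_pow, Nat.cast_pow, Nat.cast_mul, mul_pow, ds_sq, ds_sq] at h2r
  push_cast at h1r h2r
  apply ApD.of_num (G := (G:ℝ) / 16777216) (by positivity)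
  · simp only
    have e1 : (1 + (qs:ℝ) / 67108864 * (1 + ((t:ℝ) / 1024) ^ 2) -
        2 * ((cx:ℝ) / 16777216) * (1 + ((t:ℝ) / 1024) ^ 2)) ^ 2 +
      ((t:ℝ) / 1024 * (1 + (qs:ℝ) / 67108864 * (1 + ((t:ℝ) / 1024) ^ 2)) -
        2 * ((cy:ℝ) / 16777216) * (1 + ((t:ℝ) / 1024) ^ 2)) ^ 2 =
      (1024 ^ 2 * ((70368744177664 + (qs:ℝ) * (1048576 + t * t)) - 8 * cx * (1048576 + t * t)) ^ 2 +
        (t * (70368744177664 + (qs:ℝ) * (1048576 + t * t)) - 8192 * cy * (1048576 + t * t)) ^ 2) /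
        (72057594037927936 ^ 2) := by
      field_simp
      ring
    rw [e1, div_le_iff₀ (by norm_num)]
    refine h2r.trans (le_of_eq ?_)
    ring
  · simp only [gA]
    have e1 : (((cx:ℝ) / 16777216 + (t:ℝ) / 1024 * ((cy:ℝ) / 16777216)) *
        (1 + (qs:ℝ) / 67108864 * (1 + ((t:ℝ) / 1024) ^ 2)) -
        ((qs:ℝ) / 67108864 + (((cx:ℝ) / 16777216) ^ 2 + ((cy:ℝ) / 16777216) ^ 2)) *
          (1 + ((t:ℝ) / 1024) ^ 2)) - ((1 + ((t:ℝ) / 1024) ^ 2) * ((ρ:ℝ) / 16777216) ^ 2 +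
          (ρ:ℝ) / 16777216 * ((G:ℝ) / 16777216)) =
        ((1024 * (cx:ℝ) + t * cy) * (70368744177664 + qs * (1048576 + t * t)) -
          (1024 * (1048576 + (t:ℝ) * t) * (16777216 * qs + 4 * (cx * cx + cy * cy + ρ * ρ)) +
          4294967296 * ρ * G)) / 1208925819614629174706176 := by
      field_simp
      ring
    have e2 : (0:ℝ) < ((1024 * (cx:ℝ) + t * cy) * (70368744177664 + qs * (1048576 + t * t)) -
          (1024 * (1048576 + (t:ℝ) * t) * (16777216 * qs + 4 * (cx * cx + cy * cy + ρ * ρ)) +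
          4294967296 * ρ * G)) / 1208925819614629174706176 := by
      apply div_pos _ (by norm_num)
      linarith
    linarith

/-! ### ranges -/

lemma e_re_nonneg {ε : ℂ} (hε : Adm ε) : 0 ≤ (ε ^ 2).re := by
  have ex : (ε ^ 2).re = ε.re ^ 2 - ε.im ^ 2 := by rw [pow_two, Complex.mul_re]; ring
  rw [ex]
  have := hε.re; have := hε.im; have := hε.le
  nlinarith

lemma e_im_nonneg {ε : ℂ} (hε : Adm ε) : 0 ≤ (ε ^ 2).im := by
  have ey : (ε ^ 2).im = 2 * ε.re * ε.im := by rw [pow_two, Complex.mul_im]; ring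
  rw [ey]
  have := hε.re; have := hε.im
  positivity

lemma e_norm {ε : ℂ} (hε : Adm ε) : ε.re ^ 2 + ε.im ^ 2 < 1 / 4 := by
  have h1 := hε.lt_half
  have h2 : ‖ε‖ ^ 2 = ε.re ^ 2 + ε.im ^ 2 := by rw [Complex.sq_norm, Complex.normSq_apply]; ring
  have h3 := norm_nonneg ε
  nlinarith

lemma e_re_le {ε : ℂ} (hε : Adm ε) : (ε ^ 2).re ≤ 1 / 4 := by
  have ex : (ε ^ 2).re = ε.re ^ 2 - ε.im ^ 2 := by rw [pow_two, Complex.mul_re]; ring
  rw [ex]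
  have := e_norm hε
  nlinarith [sq_nonneg ε.im]

/-- a point of the square, in real numbers -/
structure Rec (ε : ℂ) (x1 x2 y1 y2 : ℕ) : Prop where
  x1 : (x1:ℝ) / 16777216 ≤ (ε ^ 2).re
  x2 : (ε ^ 2).re ≤ (x2:ℝ) / 16777216
  y1 : (y1:ℝ) / 16777216 ≤ (ε ^ 2).im
  y2 : (ε ^ 2).im ≤ (y2:ℝ) / 16777216

lemma Rec.of_sq {ε : ℂ} (hε : Adm ε) {X Y H : ℕ} (h : InSq X Y H (ε ^ 2)) :
    Rec ε (X - H) (X + H) (Y - H) (Y + H) := by
  obtain ⟨h1, h2⟩ := h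
  rw [abs_le] at h1 h2
  have hx := e_re_nonneg hε
  have hy := e_im_nonneg hε
  have key : ∀ (a b : ℕ) (x : ℝ), 0 ≤ x → -(b:ℝ) ≤ 2 ^ 24 * x - a → ((a - b : ℕ) : ℝ) / 16777216 ≤ x := by
    intro a b x hx h
    rw [div_le_iff₀ (by norm_num)]
    rcases le_total b a with hab | hab
    · rw [Nat.cast_sub hab]; norm_num at h ⊢; linarith
    · rw [Nat.sub_eq_zero_of_le hab]; push_cast; positivity
  refine ⟨key _ _ _ hx h1.1, ?_, key _ _ _ hy h2.1, ?_⟩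
  · rw [le_div_iff₀ (by norm_num)]; push_cast; norm_num at h1 ⊢; linarith [h1.2]
  · rw [le_div_iff₀ (by norm_num)]; push_cast; norm_num at h2 ⊢; linarith [h2.2]

theorem cR_sound {ε : ℂ} (hε : Adm ε) {x1 x2 y1 y2 t1 t2 q1 q2 K0 K3 : ℕ} (hr : Rec ε x1 x2 y1 y2)
    (h : cR x1 x2 y1 y2 t1 t2 q1 q2 K0 K3 = true) :
    EBox ε ((q1:ℝ) / 16777216) ((q2:ℝ) / 16777216) ((t1:ℝ) / 1024) ((t2:ℝ) / 1024) ∧
      (q2:ℝ) / 16777216 ≤ 1 / 4 ∧ (t2:ℝ) / 1024 ≤ 1 ∧ ‖1 / 4 - ε ^ 2‖ ≤ (K0:ℝ) / 16777216 ∧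
      ‖1 / 4 - ε ^ 2 / 4‖ ≤ (K3:ℝ) / 16777216 / 4 := by
  unfold cR at h
  rw [gd_true, gd_true, gd_true, gd_true, gd_true, gd_true, gd_true, gd_true, gd_true, gd_true] at h
  obtain ⟨a1, a2, a3, a4, a5, a6, a7, a8, a9, a10, a11⟩ := h
  rw [oo_true] at a5 a7
  have b1 := Nat.le_of_ble_eq_true a1
  have b2 := Nat.le_of_ble_eq_true a2
  have b3 := Nat.le_of_ble_eq_true a3
  have b4 := Nat.le_of_ble_eq_true a4
  have b6 := Nat.le_of_ble_eq_true a6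
  have b8 := Nat.le_of_ble_eq_true a8
  have b9 := Nat.le_of_ble_eq_true a9
  have b10 := Nat.le_of_ble_eq_true a10
  have b11 := Nat.le_of_ble_eq_true a11
  clear a1 a2 a3 a4 a6 a8 a9 a10 a11
  simp only [Nat.add_eq, Nat.mul_eq, Nat.sub_eq, Nat.pow_eq] at b4 b6 b8 b9 b11
  obtain ⟨c1, c2, c3, c4⟩ := hr
  have hx0 := e_re_nonneg hε
  have hy0 := e_im_nonneg hε
  have hxq := e_re_le hε
  have hn := e_norm hε
  have r1 : (t1:ℝ) ≤ 1024 := by exact_mod_cast b1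
  have r2 : (t2:ℝ) ≤ 1024 := by exact_mod_cast b2
  have hT1 : (t1:ℝ) / 1024 ≤ 1 := by rw [div_le_one (by norm_num)]; exact r1
  have hT2 : (t2:ℝ) / 1024 ≤ 1 := by rw [div_le_one (by norm_num)]; exact r2
  have hs1 : t1 * t1 ≤ 1048576 := (Nat.mul_le_mul b1 b1).trans (by norm_num)
  have hs2 : t2 * t2 ≤ 1048576 := (Nat.mul_le_mul b2 b2).trans (by norm_num)
  -- conditions in real numbers
  have g1 : 2 * ((t1:ℝ) / 1024) * ((x2:ℝ) / 16777216) ≤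
      (y1:ℝ) / 16777216 * (1 - ((t1:ℝ) / 1024) ^ 2) := by
    have : ((2048 * t1 * x2 : ℕ) : ℝ) ≤ ((y1 * (1048576 - t1 * t1) : ℕ) : ℝ) := by exact_mod_cast b4
    push_cast [Nat.cast_sub hs1] at this
    have e1 : 2 * ((t1:ℝ) / 1024) * ((x2:ℝ) / 16777216) = (2048 * (t1:ℝ) * x2) / 17592186044416 := by
      ring
    have e2 : (y1:ℝ) / 16777216 * (1 - ((t1:ℝ) / 1024) ^ 2) =
        ((y1:ℝ) * (1048576 - t1 * t1)) / 17592186044416 := by ring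
    rw [e1, e2]
    exact div_le_div_of_nonneg_right this (by norm_num)
  have g2 : (y2:ℝ) / 16777216 * (1 - ((t2:ℝ) / 1024) ^ 2) ≤
      2 * ((t2:ℝ) / 1024) * ((x1:ℝ) / 16777216) := by
    rcases a5 with a5 | a5
    · have b5 := Nat.le_of_ble_eq_true a5
      have : t2 = 1024 := le_antisymm b2 b5
      rw [this]
      have e1 : (y2:ℝ) / 16777216 * (1 - (((1024:ℕ):ℝ) / 1024) ^ 2) = 0 := by norm_num
      rw [e1]
      positivity
    · have b5 := Nat.le_of_ble_eq_true a5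
      simp only [Nat.mul_eq, Nat.sub_eq] at b5
      have : ((y2 * (1048576 - t2 * t2) : ℕ) : ℝ) ≤ ((2048 * t2 * x1 : ℕ) : ℝ) := by exact_mod_cast b5
      push_cast [Nat.cast_sub hs2] at this
      have e1 : 2 * ((t2:ℝ) / 1024) * ((x1:ℝ) / 16777216) = (2048 * (t2:ℝ) * x1) / 17592186044416 := by
        ring
      have e2 : (y2:ℝ) / 16777216 * (1 - ((t2:ℝ) / 1024) ^ 2) =
          ((y2:ℝ) * (1048576 - t2 * t2)) / 17592186044416 := by ring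
      rw [e1, e2]
      exact div_le_div_of_nonneg_right this (by norm_num)
  have g6 : ((q1:ℝ) / 16777216) ^ 2 ≤ ((x1:ℝ) / 16777216) ^ 2 + ((y1:ℝ) / 16777216) ^ 2 := by
    have : ((q1 * q1 : ℕ) : ℝ) ≤ ((x1 * x1 + y1 * y1 : ℕ) : ℝ) := by exact_mod_cast b6
    push_cast at this
    rw [div_pow, div_pow, div_pow, ← add_div]
    exact div_le_div_of_nonneg_right (by linarith) (by norm_num)
  have big : ((x2:ℝ) / 16777216) ^ 2 + ((y2:ℝ) / 16777216) ^ 2 ≤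
      ((x2:ℝ) / 16777216 + (y2:ℝ) / 16777216) ^ 2 := by
    have : 0 ≤ (x2:ℝ) / 16777216 * ((y2:ℝ) / 16777216) := by positivity
    nlinarith
  have E1 := EBox.of_rect hε c1 c2 c3 c4 (by positivity) (by positivity) (by positivity) g6 big
    (by positivity) hT1 (by positivity) hT2 g1 g2
  have hq2 : ε.re ^ 2 + ε.im ^ 2 ≤ (q2:ℝ) / 16777216 := by
    rcases a7 with a7 | a7
    · have b7 := Nat.le_of_ble_eq_true a7
      have : (4194304:ℝ) ≤ q2 := by exact_mod_cast b7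
      rw [le_div_iff₀ (by norm_num)]
      linarith
    · have b7 := Nat.le_of_ble_eq_true a7
      simp only [Nat.add_eq, Nat.mul_eq] at b7
      have g7 : ((x2:ℝ) / 16777216) ^ 2 + ((y2:ℝ) / 16777216) ^ 2 ≤ ((q2:ℝ) / 16777216) ^ 2 := by
        have : ((x2 * x2 + y2 * y2 : ℕ) : ℝ) ≤ ((q2 * q2 : ℕ) : ℝ) := by exact_mod_cast b7
        push_cast at this
        rw [div_pow, div_pow, div_pow, ← add_div]
        exact div_le_div_of_nonneg_right (by linarith) (by norm_num)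
      exact (EBox.of_rect hε c1 c2 c3 c4 (by positivity) (by positivity) (by positivity) g6 g7
        (by positivity) hT1 (by positivity) hT2 g1 g2).q2
  have hq2' : (q2:ℝ) / 16777216 ≤ 1 / 4 := by
    have : (q2:ℝ) ≤ 4194304 := by exact_mod_cast b3
    rw [div_le_iff₀ (by norm_num)]; linarith
  refine ⟨⟨E1.q1, hq2, E1.T1, E1.T2⟩, hq2', hT2, ?_, ?_⟩
  · -- `|1/4 - e|`
    have s8 : ((x1:ℝ) - 4194304) ^ 2 + (y2:ℝ) ^ 2 ≤ (K0:ℝ) ^ 2 := by
      have : (((ds x1 4194304) ^ 2 + y2 * y2 : ℕ) : ℝ) ≤ ((K0 * K0 : ℕ) : ℝ) := by exact_mod_cast b8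
      rw [Nat.cast_add, Nat.cast_pow, ds_sq] at this
      push_cast at this
      linarith
    have s9 : ((x2:ℝ) - 4194304) ^ 2 + (y2:ℝ) ^ 2 ≤ (K0:ℝ) ^ 2 := by
      have : (((ds x2 4194304) ^ 2 + y2 * y2 : ℕ) : ℝ) ≤ ((K0 * K0 : ℕ) : ℝ) := by exact_mod_cast b9
      rw [Nat.cast_add, Nat.cast_pow, ds_sq] at this
      push_cast at this
      linarith
    refine le_of_sq_le_sq_h ?_ (by positivity)
    rw [Complex.sq_norm, Complex.normSq_apply]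
    have e1 : (1 / 4 - ε ^ 2 : ℂ).re = 1 / 4 - (ε ^ 2).re := by simp
    have e2 : (1 / 4 - ε ^ 2 : ℂ).im = -(ε ^ 2).im := by simp
    rw [e1, e2]
    obtain ⟨x, hx⟩ : ∃ x, x = 16777216 * (ε ^ 2).re := ⟨_, rfl⟩
    obtain ⟨y, hy⟩ : ∃ y, y = 16777216 * (ε ^ 2).im := ⟨_, rfl⟩
    have e3 : (ε ^ 2).re = x / 16777216 := by rw [hx]; ring
    have e4 : (ε ^ 2).im = y / 16777216 := by rw [hy]; ring
    rw [e3] at c1 c2
    rw [e4] at c4 hy0
    rw [e3, e4]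
    have d1 : (x1:ℝ) ≤ x := (div_le_div_iff_of_pos_right (by norm_num)).1 c1
    have d2 : x ≤ (x2:ℝ) := (div_le_div_iff_of_pos_right (by norm_num)).1 c2
    have d4 : y ≤ (y2:ℝ) := (div_le_div_iff_of_pos_right (by norm_num)).1 c4
    have d0 : 0 ≤ y := by
      have : 0 * 16777216 ≤ y := (le_div_iff₀ (by norm_num)).1 hy0
      linarith
    have m1 : y ^ 2 ≤ (y2:ℝ) ^ 2 := by gcongr
    have m2 : (x - 4194304) ^ 2 + y ^ 2 ≤ (K0:ℝ) ^ 2 := by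
      rcases le_total x 4194304 with hc | hc
      · nlinarith
      · nlinarith
    have e5 : (1 / 4 - x / 16777216) * (1 / 4 - x / 16777216) + -(y / 16777216) * -(y / 16777216) =
        ((x - 4194304) ^ 2 + y ^ 2) / 281474976710656 := by ring
    rw [e5, div_pow]
    norm_num
    linarith
  · have s11 : (16777216 - (x1:ℝ)) ^ 2 + (y2:ℝ) ^ 2 ≤ (K3:ℝ) ^ 2 := by
      have : (((16777216 - x1) ^ 2 + y2 * y2 : ℕ) : ℝ) ≤ ((K3 * K3 : ℕ) : ℝ) := by exact_mod_cast b11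
      push_cast [Nat.cast_sub b10] at this
      linarith
    have e0 : (1 / 4 - ε ^ 2 / 4 : ℂ) = (1 - ε ^ 2) / 4 := by ring
    rw [e0, norm_div, show ‖(4:ℂ)‖ = 4 by simp]
    refine div_le_div_of_nonneg_right ?_ (by norm_num)
    refine le_of_sq_le_sq_h ?_ (by positivity)
    rw [Complex.sq_norm, Complex.normSq_apply]
    have e1 : (1 - ε ^ 2 : ℂ).re = 1 - (ε ^ 2).re := by simp
    have e2 : (1 - ε ^ 2 : ℂ).im = -(ε ^ 2).im := by simp
    rw [e1, e2]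
    obtain ⟨x, hx⟩ : ∃ x, x = 16777216 * (ε ^ 2).re := ⟨_, rfl⟩
    obtain ⟨y, hy⟩ : ∃ y, y = 16777216 * (ε ^ 2).im := ⟨_, rfl⟩
    have e3 : (ε ^ 2).re = x / 16777216 := by rw [hx]; ring
    have e4 : (ε ^ 2).im = y / 16777216 := by rw [hy]; ring
    rw [e3] at c1 hxq
    rw [e4] at c4 hy0
    rw [e3, e4]
    have d1 : (x1:ℝ) ≤ x := (div_le_div_iff_of_pos_right (by norm_num)).1 c1
    have d2 : x ≤ 4194304 := by
      have : x ≤ 1 / 4 * 16777216 := (div_le_iff₀ (by norm_num)).1 hxq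
      linarith
    have d4 : y ≤ (y2:ℝ) := (div_le_div_iff_of_pos_right (by norm_num)).1 c4
    have d0 : 0 ≤ y := by
      have : 0 * 16777216 ≤ y := (le_div_iff₀ (by norm_num)).1 hy0
      linarith
    have m1 : y ^ 2 ≤ (y2:ℝ) ^ 2 := by gcongr
    have m2 : (16777216 - x) ^ 2 + y ^ 2 ≤ (K3:ℝ) ^ 2 := by
      have : (16777216 - x) ^ 2 ≤ (16777216 - (x1:ℝ)) ^ 2 :=
        pow_le_pow_left₀ (by linarith) (by linarith) 2
      linarith
    have e5 : (1 - x / 16777216) * (1 - x / 16777216) + -(y / 16777216) * -(y / 16777216) =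
        ((16777216 - x) ^ 2 + y ^ 2) / 281474976710656 := by ring
    rw [e5, div_pow]
    norm_num
    linarith

/-! ### the closers -/

/-- what a closer over the base `0` does -/
def Tr0 (ε : ℂ) (f : ℕ → ℕ → ℕ → Bool) : Prop :=
  ∀ A B r : ℕ, f A B r = true → ∀ (x : ℝ) (n : ℤ), x = n → Dead ε x (pz A B) ((r:ℝ) / 16777216)

/-- what a closer over the base `1 / 3` does -/
def Tr3 (ε : ℂ) (f : ℕ → ℕ → ℕ → Bool) : Prop :=
  ∀ A B r : ℕ, f A B r = true → ∀ (x : ℝ) (q : ℤ), 3 * x = q → ¬ (3 ∣ q) →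
    Dead ε x (pz A B) ((r:ℝ) / 16777216)

lemma r0_pos {P Q R A B r : ℕ} (h : inD P Q R A B r = true) : 0 < R :=
  lt_of_le_of_lt (Nat.zero_le _) (inD_sound h).1

theorem cE_sound {ε : ℂ} {K0 K3 r0 R0 r3 R3 : ℕ} (h : cE K0 K3 r0 R0 r3 R3 = true)
    (h0 : ‖1 / 4 - ε ^ 2‖ ≤ (K0:ℝ) / 16777216)
    (h3 : ‖1 / 4 - ε ^ 2 / 4‖ ≤ (K3:ℝ) / 16777216 / 4) :
    (0 < r0 → ((r0:ℝ) / 16777216) ^ 2 + ‖1 / 4 - ε ^ 2‖ < (r0:ℝ) / 16777216) ∧
    (0 < r3 → ((r3:ℝ) / 33554432) ^ 2 + ‖1 / 4 - ε ^ 2 / 4‖ < (r3:ℝ) / 33554432) ∧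
    (R0:ℝ) / 16777216 + ‖1 / 4 - ε ^ 2‖ < ((R0:ℝ) / 16777216) ^ 2 ∧ 1 / 2 ≤ (R0:ℝ) / 16777216 ∧
    (R3:ℝ) / 33554432 + ‖1 / 4 - ε ^ 2 / 4‖ < ((R3:ℝ) / 33554432) ^ 2 ∧ 1 / 2 ≤ (R3:ℝ) / 33554432 := by
  unfold cE at h
  rw [gd_true, gd_true, gd_true, gd_true, gd_true, oo_true, oo_true] at h
  obtain ⟨a1, a2, a3, a4, a5, a6⟩ := h
  have b3 := Nat.le_of_ble_eq_true a3
  have b4 := Nat.le_of_ble_eq_true a4
  have b5 := Nat.le_of_ble_eq_true a5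
  have b6 := Nat.le_of_ble_eq_true a6
  simp only [Nat.add_eq, Nat.mul_eq, Nat.succ_eq_add_one] at b5 b6
  have c3 : (8388608:ℝ) ≤ R0 := by exact_mod_cast b3
  have c4 : (16777216:ℝ) ≤ R3 := by exact_mod_cast b4
  have c5 : (16777216:ℝ) * R0 + 16777216 * K0 + 1 ≤ R0 * R0 := by exact_mod_cast b5
  have c6 : (33554432:ℝ) * R3 + 16777216 * K3 + 1 ≤ R3 * R3 := by exact_mod_cast b6
  refine ⟨fun hp => ?_, fun hp => ?_, ?_, ?_, ?_, ?_⟩
  · rcases a1 with a1 | a1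
    · have := Nat.le_of_ble_eq_true a1; omega
    · have b1 := Nat.le_of_ble_eq_true a1
      simp only [Nat.add_eq, Nat.mul_eq, Nat.succ_eq_add_one] at b1
      have c1 : (r0:ℝ) * r0 + 16777216 * K0 + 1 ≤ 16777216 * r0 := by exact_mod_cast b1
      have e1 : ((r0:ℝ) / 16777216) ^ 2 + (K0:ℝ) / 16777216 = (r0 * r0 + 16777216 * K0) / 281474976710656 := by
        ring
      have e2 : (r0:ℝ) / 16777216 = (16777216 * r0) / 281474976710656 := by ring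
      calc ((r0:ℝ) / 16777216) ^ 2 + ‖1 / 4 - ε ^ 2‖ ≤ ((r0:ℝ) / 16777216) ^ 2 + (K0:ℝ) / 16777216 := by gcongr
        _ = ((r0:ℝ) * r0 + 16777216 * K0) / 281474976710656 := e1
        _ < (16777216 * (r0:ℝ)) / 281474976710656 := by
            apply div_lt_div_of_pos_right _ (by norm_num); linarith
        _ = _ := e2.symm
  · rcases a2 with a2 | a2
    · have := Nat.le_of_ble_eq_true a2; omega
    · have b2 := Nat.le_of_ble_eq_true a2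
      simp only [Nat.add_eq, Nat.mul_eq, Nat.succ_eq_add_one] at b2
      have c2 : (r3:ℝ) * r3 + 16777216 * K3 + 1 ≤ 33554432 * r3 := by exact_mod_cast b2
      have e1 : ((r3:ℝ) / 33554432) ^ 2 + (K3:ℝ) / 16777216 / 4 =
          (r3 * r3 + 16777216 * K3) / 1125899906842624 := by ring
      have e2 : (r3:ℝ) / 33554432 = (33554432 * r3) / 1125899906842624 := by ring
      calc ((r3:ℝ) / 33554432) ^ 2 + ‖1 / 4 - ε ^ 2 / 4‖ ≤
            ((r3:ℝ) / 33554432) ^ 2 + (K3:ℝ) / 16777216 / 4 := by gcongr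
        _ = ((r3:ℝ) * r3 + 16777216 * K3) / 1125899906842624 := e1
        _ < (33554432 * (r3:ℝ)) / 1125899906842624 := by
            apply div_lt_div_of_pos_right _ (by norm_num); linarith
        _ = _ := e2.symm
  · have e1 : (R0:ℝ) / 16777216 + (K0:ℝ) / 16777216 = (16777216 * R0 + 16777216 * K0) / 281474976710656 := by
      ring
    have e2 : ((R0:ℝ) / 16777216) ^ 2 = (R0 * R0) / 281474976710656 := by ring
    calc (R0:ℝ) / 16777216 + ‖1 / 4 - ε ^ 2‖ ≤ (R0:ℝ) / 16777216 + (K0:ℝ) / 16777216 := by gcongr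
      _ = _ := e1
      _ < ((R0:ℝ) * R0) / 281474976710656 := by
          apply div_lt_div_of_pos_right _ (by norm_num); linarith
      _ = _ := e2.symm
  · rw [le_div_iff₀ (by norm_num)]; linarith
  · have e1 : (R3:ℝ) / 33554432 + (K3:ℝ) / 16777216 / 4 =
        (33554432 * R3 + 16777216 * K3) / 1125899906842624 := by ring
    have e2 : ((R3:ℝ) / 33554432) ^ 2 = (R3 * R3) / 1125899906842624 := by ring
    calc (R3:ℝ) / 33554432 + ‖1 / 4 - ε ^ 2 / 4‖ ≤ (R3:ℝ) / 33554432 + (K3:ℝ) / 16777216 / 4 := by gcongr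
      _ = _ := e1
      _ < ((R3:ℝ) * R3) / 1125899906842624 := by
          apply div_lt_div_of_pos_right _ (by norm_num); linarith
      _ = _ := e2.symm
  · rw [le_div_iff₀ (by norm_num)]; linarith

/-- closer over the base `0` -/
theorem cl0_sound {ε : ℂ} (hε : Adm ε) {q1 q2 T1 T2 : ℝ} (hE : EBox ε q1 q2 T1 T2) (h0 : 0 ≤ q1)
    (h4 : q2 ≤ 1 / 4) (hT0 : 0 ≤ T1) (hT1 : T2 ≤ 1) {r0 R0 P1 Q1 R1 P2 Q2 R2 P3 Q3 R3 P4 Q4 R4 : ℕ}
    (hr : 0 < r0 → ((r0:ℝ) / 16777216) ^ 2 + ‖1 / 4 - ε ^ 2‖ < (r0:ℝ) / 16777216)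
    (hR : (R0:ℝ) / 16777216 + ‖1 / 4 - ε ^ 2‖ < ((R0:ℝ) / 16777216) ^ 2)
    (hR' : 1 / 2 ≤ (R0:ℝ) / 16777216)
    (c1 : ApD T1 q1 (pz P1 Q1) ((R1:ℝ) / 16777216)) (c2 : ApD T1 q2 (pz P2 Q2) ((R2:ℝ) / 16777216))
    (c3 : ApD T2 q1 (pz P3 Q3) ((R3:ℝ) / 16777216)) (c4 : ApD T2 q2 (pz P4 Q4) ((R4:ℝ) / 16777216)) :
    Tr0 ε (cl0 r0 R0 P1 Q1 R1 P2 Q2 R2 P3 Q3 R3 P4 Q4 R4) := by
  intro A B r h x n hx
  unfold cl0 at h
  rw [oo_true, oo_true] at h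
  rcases h with h | h | h
  · have h1 := inD_pz h
    rw [pz_half] at h1
    exact (dead_disc0 hε hx (hr (r0_pos h))).mono h1
  · have h1 := outD_pz h
    rw [pz_half] at h1
    exact dead_esc0 hx hR hR' h1
  · unfold in4 at h
    rw [gd_true, gd_true, gd_true] at h
    obtain ⟨h1, h2, h3, h4'⟩ := h
    exact dead_E0 hε hE h0 h4 hT0 hT1 hx (c1.mono (inD_pz h1)) (c2.mono (inD_pz h2))
      (c3.mono (inD_pz h3)) (c4.mono (inD_pz h4'))

/-- closer over the base `1 / 3` -/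
theorem cl3_sound {ε : ℂ} (hε : Adm ε) {q1 q2 T1 T2 : ℝ} (hE : EBox ε q1 q2 T1 T2) (h0 : 0 ≤ q1)
    (h4 : q2 ≤ 1 / 4) (hT0 : 0 ≤ T1) (hT1 : T2 ≤ 1) {r3 R3 P1 Q1 R1 P2 Q2 R2 P3 Q3 S3 P4 Q4 R4 : ℕ}
    (hr : 0 < r3 → ((r3:ℝ) / 33554432) ^ 2 + ‖1 / 4 - ε ^ 2 / 4‖ < (r3:ℝ) / 33554432)
    (hR : (R3:ℝ) / 33554432 + ‖1 / 4 - ε ^ 2 / 4‖ < ((R3:ℝ) / 33554432) ^ 2)
    (hR' : 1 / 2 ≤ (R3:ℝ) / 33554432)
    (c1 : ApD T1 (q1 / 4) (-(pz P1 Q1) / 2) ((R1:ℝ) / 33554432))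
    (c2 : ApD T1 (q2 / 4) (-(pz P2 Q2) / 2) ((R2:ℝ) / 33554432))
    (c3 : ApD T2 (q1 / 4) (-(pz P3 Q3) / 2) ((S3:ℝ) / 33554432))
    (c4 : ApD T2 (q2 / 4) (-(pz P4 Q4) / 2) ((R4:ℝ) / 33554432)) :
    Tr3 ε (cl3 r3 R3 P1 Q1 R1 P2 Q2 R2 P3 Q3 S3 P4 Q4 R4) := by
  intro A B r h x q hx hq
  unfold cl3 at h
  rw [oo_true, oo_true] at h
  rcases h with h | h | h
  · have h1 := inD_pz h
    rw [pz_neg_one] at h1
    have e1 : 2 * ((r3:ℝ) / 33554432) = (r3:ℝ) / 16777216 := by ring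
    have h2 := dead_disc3 hε hx hq (hr (r0_pos h))
    rw [e1] at h2
    exact h2.mono h1
  · have h1 := outD_pz h
    rw [pz_neg_one] at h1
    refine dead_esc3 hx hq hR hR' ?_
    have e1 : 2 * ((R3:ℝ) / 33554432) = (R3:ℝ) / 16777216 := by ring
    rw [e1]
    rwa [sub_neg_eq_add] at h1
  · unfold in4 at h
    rw [gd_true, gd_true, gd_true] at h
    obtain ⟨h1, h2, h3, h4'⟩ := h
    have key : ∀ {P Q R : ℕ} {T s : ℝ}, ApD T s (-(pz P Q) / 2) ((R:ℝ) / 33554432) →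
        inD P Q R A B r = true → ApD T s (-(pz A B) / 2) ((r:ℝ) / 33554432) := by
      intro P Q R T s hA hi
      refine hA.mono ?_
      have h5 := inD_pz hi
      have e1 : -(pz A B) / 2 - -(pz P Q) / 2 = -((pz A B - pz P Q) / 2) := by ring
      rw [e1, norm_neg, norm_div, Complex.norm_ofNat]
      linarith
    have h5 := dead_E3 hε hE h0 h4 hT0 hT1 hx hq (key c1 h1) (key c2 h2) (key c3 h3) (key c4 h4')
    have e1 : (-2 : ℂ) * (-(pz A B) / 2) = pz A B := by ring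
    have e2 : 2 * ((r:ℝ) / 33554432) = (r:ℝ) / 16777216 := by ring
    rw [e1, e2] at h5
    exact h5

lemma pz_add (a b : ℕ) : pz (536870912 + a) (536870912 + b) =
    ⟨(a:ℝ) / 16777216, (b:ℝ) / 16777216⟩ := by
  unfold pz pt
  have e16 : (16777216 : ℂ) = ((16777216 : ℝ) : ℂ) := by norm_num
  rw [e16]
  apply Complex.ext
  · rw [Complex.div_ofReal_re]; push_cast; ring
  · rw [Complex.div_ofReal_im]; push_cast; ring

lemma pz_sub {a b : ℕ} (ha : a ≤ 16777216) (hb : b ≤ 16777216) :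
    -(pz (536870912 - 2 * a) (536870912 - 2 * b)) / 2 = ⟨(a:ℝ) / 16777216, (b:ℝ) / 16777216⟩ := by
  unfold pz pt
  have e16 : (16777216 : ℂ) = ((16777216 : ℝ) : ℂ) := by norm_num
  have e2 : (2 : ℂ) = ((2 : ℝ) : ℂ) := by norm_num
  have ha' : 2 * a ≤ 536870912 := by omega
  have hb' : 2 * b ≤ 536870912 := by omega
  rw [e16]
  conv_lhs => rw [e2]
  apply Complex.ext
  · rw [Complex.div_ofReal_re, Complex.neg_re, Complex.div_ofReal_re]
    simp only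
    push_cast [Nat.cast_sub ha']
    ring
  · rw [Complex.div_ofReal_im, Complex.neg_im, Complex.div_ofReal_im]
    simp only
    push_cast [Nat.cast_sub hb']
    ring

/-- **Soundness of the header.** -/
theorem hdr_sound {ε : ℂ} (hε : Adm ε) {X Y H t1 t2 q1 q2 K0 K3 r0 R0 r3 R3
    a1 b1 R1 G1 a2 b2 R2 G2 a3 b3 R3' G3 a4 b4 R4 G4
    c1 d1 S1 F1 c2 d2 S2 F2 c3 d3 S3 F3 c4' d4 S4 F4 : ℕ}
    {k : (ℕ → ℕ → ℕ → Bool) → (ℕ → ℕ → ℕ → Bool) → Bool} (hs : InSq X Y H (ε ^ 2))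
    (h : hdr X Y H t1 t2 q1 q2 K0 K3 r0 R0 r3 R3
      a1 b1 R1 G1 a2 b2 R2 G2 a3 b3 R3' G3 a4 b4 R4 G4
      c1 d1 S1 F1 c2 d2 S2 F2 c3 d3 S3 F3 c4' d4 S4 F4 k = true) :
    ∃ f g : ℕ → ℕ → ℕ → Bool, Tr0 ε f ∧ Tr3 ε g ∧ k f g = true := by
  unfold hdr c4 at h
  rw [gd_true, gd_true, gd_true, gd_true, gd_true, gd_true, gd_true, gd_true, gd_true, gd_true] at h
  simp only [Nat.add_eq, Nat.mul_eq, Nat.sub_eq] at h
  obtain ⟨hR, hE, ⟨p1, p2, p3, p4⟩, ⟨s1, s2, s3, s4⟩, hk⟩ := h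
  obtain ⟨B1, B2, B3, B4, B5⟩ := cR_sound hε (Rec.of_sq hε hs) hR
  obtain ⟨C1, C2, C3, C4, C5, C6⟩ := cE_sound hE B4 B5
  refine ⟨_, _, ?_, ?_, hk⟩
  · have key : ∀ {t q a b R G : ℕ}, cA t (4 * q) a b R G = true →
        ApD ((t:ℝ) / 1024) ((q:ℝ) / 16777216) (pz (536870912 + a) (536870912 + b))
          ((R:ℝ) / 16777216) := by
      intro t q a b R G h
      rw [pz_add]
      have e1 : ((4 * q : ℕ) : ℝ) / 67108864 = (q:ℝ) / 16777216 := by push_cast; ring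
      have := (cA_sound h).1
      rwa [e1] at this
    exact cl0_sound hε B1 (by positivity) B2 (by positivity) B3 C1 C3 C4 (key p1) (key p2) (key p3)
      (key p4)
  · have key : ∀ {t q a b R G : ℕ}, cA t q a b R G = true →
        ApD ((t:ℝ) / 1024) ((q:ℝ) / 16777216 / 4)
          (-(pz (536870912 - 2 * a) (536870912 - 2 * b)) / 2) (((2 * R : ℕ) : ℝ) / 33554432) := by
      intro t q a b R G h
      obtain ⟨h1, h2, h3⟩ := cA_sound h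
      rw [pz_sub h2 h3]
      have e1 : (q:ℝ) / 67108864 = (q:ℝ) / 16777216 / 4 := by ring
      have e2 : ((2 * R : ℕ) : ℝ) / 33554432 = (R:ℝ) / 16777216 := by push_cast; ring
      rw [e2]
      rwa [e1] at h1
    exact cl3_sound hε B1 (by positivity) B2 (by positivity) B3 C2 C5 C6 (key s1) (key s2) (key s3)
      (key s4)

end Pool.Agent.W_4481e3_h58.Hdr
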