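import Pool.Agent.W_4481e3_h58.RdrK
import Pool.Agent.W_4481e3_h58.HdrSnd

/-!
Soundness of the closers of a rectangle of parameters.
-/

namespace Pool.Agent.W_4481e3_h58.Hdr

open Complex
open Pool.Agent.W_MP_4481e3_an.Ev (gd pt gd_true norm_pt_sq nrm1 nrm1_sound div_lower div_upper
  ndiv_eq)
open Pool.Agent.W_4481e3_q12.Ev (ds ds_cast)
open Pool.Agent.W_4481e3_q42
open Pool.Agent.W_4481e3_q46 (InSq)

lemma nrm1_pos (N u : ℕ) : 0 < nrm1 N u := by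
  unfold nrm1
  exact Nat.succ_pos _

lemma rt3_sound {N g : ℕ} {x : ℝ} (hx : x ^ 2 ≤ N) : x ≤ rt3 N g :=
  nrm1_sound (nrm1_pos _ _) hx

/-- the corner discs computed from `(t, q)` -/
theorem disc_sound {t qs : ℕ} (ht : t ≤ 1024) (hq : qs ≤ 16777216) :
    ApD ((t:ℝ) / 1024) ((qs:ℝ) / 67108864)
      ⟨((ccx qs (dsc t) : ℕ) : ℝ) / 16777216, ((ccy t qs (dsc t) : ℕ) : ℝ) / 16777216⟩
      (((crr qs (dsc t) (dsu t) : ℕ) : ℝ) / 16777216) ∧
      ccx qs (dsc t) ≤ 16777216 ∧ ccy t qs (dsc t) ≤ 16777216 := by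
  obtain ⟨D, hD⟩ : ∃ D, D = dsc t := ⟨_, rfl⟩
  obtain ⟨u, hu⟩ : ∃ u, u = dsu t := ⟨_, rfl⟩
  rw [← hD, ← hu]
  have hDr : (D:ℝ) = 1048576 + (t:ℝ) * t := by
    rw [hD]; unfold dsc; simp only [Nat.add_eq, Nat.mul_eq]; push_cast; ring
  have htr : (t:ℝ) ≤ 1024 := by exact_mod_cast ht
  have ht0 : (0:ℝ) ≤ t := Nat.cast_nonneg _
  have hqr : (qs:ℝ) ≤ 16777216 := by exact_mod_cast hq
  have hq0 : (0:ℝ) ≤ qs := Nat.cast_nonneg _
  have hD1 : (1048576:ℝ) ≤ D := by rw [hDr]; nlinarith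
  have hD2 : (D:ℝ) ≤ 2097152 := by rw [hDr]; nlinarith
  have hDn : 0 < D := by
    have : (0:ℝ) < D := by linarith
    exact_mod_cast this
  -- `u ^ 2 ≥ 2^28 D`
  have hu2 : 268435456 * (D:ℝ) ≤ (u:ℝ) ^ 2 := by
    have h1 : Real.sqrt (268435456 * (D:ℝ)) ≤ u := by
      rw [hu]; unfold dsu
      apply rt3_sound
      rw [Real.sq_sqrt (by positivity)]
      rw [← hD]
      simp only [Nat.mul_eq]
      push_cast
      exact le_rfl
    have h2 : 0 ≤ Real.sqrt (268435456 * (D:ℝ)) := Real.sqrt_nonneg _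
    calc 268435456 * (D:ℝ) = Real.sqrt (268435456 * (D:ℝ)) ^ 2 := by
          rw [Real.sq_sqrt (by positivity)]
      _ ≤ (u:ℝ) ^ 2 := by gcongr
  have hu0 : (0:ℝ) ≤ u := Nat.cast_nonneg _
  have hup : (0:ℝ) < u := by
    rcases eq_or_lt_of_le hu0 with h | h
    · rw [← h] at hu2; nlinarith
    · exact h
  -- the centre
  obtain ⟨a, ha⟩ : ∃ a, a = 70368744177664 / D := ⟨_, rfl⟩
  obtain ⟨x, hx⟩ : ∃ x, x = ccx qs D := ⟨_, rfl⟩
  obtain ⟨y, hy⟩ : ∃ y, y = ccy t qs D := ⟨_, rfl⟩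
  obtain ⟨R, hR⟩ : ∃ R, R = crr qs D u := ⟨_, rfl⟩
  have hx' : x = (a + qs) / 8 := by rw [hx, ha]; rfl
  have hy' : y = t * x / 1024 := by rw [hy, hx]; rfl
  have hR' : R = 2 * (70368744177664 - qs * D) / u - 4 := by rw [hR]; rfl
  rw [← hx, ← hy, ← hR]
  clear hx hy hR
  have la := div_lower 70368744177664 D hDn
  have ua := div_upper 70368744177664 D
  rw [← ha] at la ua
  have lx := div_lower (a + qs) 8 (by norm_num)
  have ux := div_upper (a + qs) 8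
  rw [← hx'] at lx ux
  have ly := div_lower (t * x) 1024 (by norm_num)
  have uy := div_upper (t * x) 1024
  rw [← hy'] at ly uy
  push_cast at la ua lx ux ly uy
  obtain ⟨z, hz⟩ : ∃ z : ℝ, z = ((70368744177664:ℝ) / D + qs) / 8 := ⟨_, rfl⟩
  have hz1 : (x:ℝ) ≤ z := by rw [hz]; linarith
  have hz2 : z - 9 / 8 ≤ x := by rw [hz]; linarith
  have hzmax : z ≤ 10485760 := by
    have : (70368744177664:ℝ) / D ≤ 67108864 := by
      rw [div_le_iff₀ (by linarith)]; linarith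
    rw [hz]; linarith
  have hT : (t:ℝ) / 1024 ≤ 1 := by rw [div_le_one (by norm_num)]; exact htr
  have hT0 : 0 ≤ (t:ℝ) / 1024 := by positivity
  obtain ⟨T, hTd⟩ : ∃ T : ℝ, T = (t:ℝ) / 1024 := ⟨_, rfl⟩
  have ht' : (t:ℝ) = 1024 * T := by rw [hTd]; ring
  rw [← hTd] at hT hT0
  have hy1 : (y:ℝ) ≤ T * z := by
    have : (t:ℝ) * x / 1024 = T * x := by rw [ht']; ring
    rw [this] at uy
    exact uy.trans (mul_le_mul_of_nonneg_left hz1 hT0)
  have hy2 : T * z - 17 / 8 ≤ y := by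
    have e1 : (t:ℝ) * x / 1024 = T * x := by rw [ht']; ring
    rw [e1] at ly
    have : T * (z - 9 / 8) ≤ T * x := mul_le_mul_of_nonneg_left hz2 hT0
    nlinarith
  have hx0 : (0:ℝ) ≤ x := Nat.cast_nonneg _
  have hxle : x ≤ 16777216 := by
    have : (x:ℝ) ≤ 16777216 := by linarith
    exact_mod_cast this
  have hyle : y ≤ 16777216 := by
    have h1 : T * z ≤ 1 * z := mul_le_mul_of_nonneg_right hT (hx0.trans hz1)
    have : (y:ℝ) ≤ 16777216 := by linarith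
    exact_mod_cast this
  refine ⟨?_, hxle, hyle⟩
  -- the radius
  have hs : (D:ℝ) = 1048576 * (1 + T ^ 2) := by rw [hDr, ht']; ring
  have hqD : qs * D ≤ 70368744177664 := by
    have : ((qs * D : ℕ) : ℝ) ≤ 70368744177664 := by
      push_cast
      nlinarith
    exact_mod_cast this
  obtain ⟨q, hqd⟩ : ∃ q : ℝ, q = (qs:ℝ) / 67108864 := ⟨_, rfl⟩
  have hqs : (qs:ℝ) = 67108864 * q := by rw [hqd]; ring
  have hq14 : q ≤ 1 / 4 := by rw [hqd, div_le_iff₀ (by norm_num)]; linarith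
  have hqnn : 0 ≤ q := by rw [hqd]; positivity
  have hT2 : T ^ 2 ≤ 1 := by nlinarith
  have hT2n : 0 ≤ T ^ 2 := sq_nonneg _
  have hqs2 : q * (1 + T ^ 2) ≤ 1 / 2 := by nlinarith
  have hu3 : (u:ℝ) ^ 2 ≥ 281474976710656 * (1 + T ^ 2) := by
    rw [hs] at hu2; linarith
  have huub : (u:ℝ) * 4 ≤ 70368744177664 := by
    by_contra hcon
    -- `u` is small
    have h2 : u ≤ 17592186044416 := by
      rw [hu]
      unfold dsu rt3
      have hN : (Nat.mul 268435456 (dsc t)) ≤ 562949953421312 := by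
        rw [← hD]
        have : (D:ℝ) ≤ 2097152 := hD2
        have h3 : D ≤ 2097152 := by exact_mod_cast this
        simp only [Nat.mul_eq]
        omega
      have hw0 : 16777216 ≤ Nat.succ (Nat.add 16777216 (Nat.mul 8 (Nat.mul t t))) := by
        simp only [Nat.add_eq, Nat.mul_eq]
        omega
      have hw1 : Nat.succ (Nat.add 16777216 (Nat.mul 8 (Nat.mul t t))) ≤ 25165825 := by
        simp only [Nat.add_eq, Nat.mul_eq]
        have : t * t ≤ 1048576 := (Nat.mul_le_mul ht ht).trans (by norm_num)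
        omega
      have first : ∀ N w : ℕ, N ≤ 562949953421312 → 16777216 ≤ w → w ≤ 50331648 →
          16777216 ≤ nrm1 N w + 16777216 ∧ nrm1 N w ≤ 41943041 := by
        intro N w hN h1 h2
        refine ⟨by omega, ?_⟩
        unfold nrm1
        simp only [Nat.add_eq, ndiv_eq]
        have h3 : N / w ≤ 33554432 := by
          apply Nat.div_le_of_le_mul
          calc N ≤ 16777216 * 33554432 := hN.trans (by norm_num)
            _ ≤ w * 33554432 := Nat.mul_le_mul_right _ h1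
        have h4 : (N / w + w) / 2 ≤ (33554432 + 50331648) / 2 :=
          Nat.div_le_div_right (by omega)
        omega
      have lowb : ∀ N w : ℕ, 281474976710656 ≤ N → 1 ≤ w → 16777216 ≤ nrm1 N w := by
        intro N w hN h1
        have h5 : (16777216:ℝ) ≤ nrm1 N w := by
          apply nrm1_sound h1
          calc (16777216:ℝ) ^ 2 = 281474976710656 := by norm_num
            _ ≤ (N:ℝ) := by exact_mod_cast hN
        exact_mod_cast h5
      have hNl : 281474976710656 ≤ Nat.mul 268435456 (dsc t) := by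
        rw [← hD]
        have h3 : 1048576 ≤ D := by exact_mod_cast hD1
        simp only [Nat.mul_eq]
        omega
      have b1 := (first _ _ hN hw0 (by omega)).2
      have b1' := lowb _ _ hNl (le_trans (by norm_num) hw0)
      have b2 := (first _ _ hN b1' (by omega)).2
      have b2' := lowb _ _ hNl (le_trans (by norm_num) b1')
      have b3 := (first _ _ hN b2' (by omega)).2
      exact b3.trans (by norm_num)
    have h3 : (u:ℝ) ≤ 17592186044416 := by exact_mod_cast h2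
    linarith
  have hRu : ((R:ℝ) + 4) * u ≤ 140737488355328 * (1 - q * (1 + T ^ 2)) := by
    have eM : ((2 * (70368744177664 - qs * D) : ℕ) : ℝ) =
        140737488355328 * (1 - q * (1 + T ^ 2)) := by
      push_cast [Nat.cast_sub hqD]
      rw [hs, hqs]; ring
    have hdu := div_upper (2 * (70368744177664 - qs * D)) u
    rw [eM, le_div_iff₀ hup] at hdu
    rcases le_total 4 (2 * (70368744177664 - qs * D) / u) with h | h
    · have : (R:ℝ) = ((2 * (70368744177664 - qs * D) / u : ℕ) : ℝ) - 4 := by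
        rw [hR', Nat.cast_sub h]; norm_num
      rw [this]; linarith
    · have : (R:ℝ) = 0 := by
        rw [hR', Nat.sub_eq_zero_of_le h]; norm_num
      rw [this]
      nlinarith
  rw [← hTd, ← hqd]
  obtain ⟨ν, hν⟩ : ∃ ν : ℝ, ν = 1 / (1 + T ^ 2) + q := ⟨_, rfl⟩
  have hTp : 0 < 1 + T ^ 2 := by positivity
  have hν1 : ν * (1 + T ^ 2) = 1 + q * (1 + T ^ 2) := by rw [hν]; field_simp
  have hzν : z = 8388608 * ν := by
    rw [hz, hs, hqs, hν]
    field_simp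
    ring
  apply ApD.of_center (ν := ν) (δ := 3 / 16777216) (N := ⟨ν, T * ν⟩) hν1 rfl
  · rw [← sq_le_sq₀ (norm_nonneg _) (by norm_num), Complex.sq_norm, Complex.normSq_apply,
      Complex.sub_re, Complex.sub_im]
    have e1 : ((2:ℂ) * ⟨(x:ℝ) / 16777216, (y:ℝ) / 16777216⟩).re = 2 * ((x:ℝ) / 16777216) := by
      rw [show (2:ℂ) = ((2:ℝ):ℂ) by norm_num, Complex.re_ofReal_mul]
    have e2 : ((2:ℂ) * ⟨(x:ℝ) / 16777216, (y:ℝ) / 16777216⟩).im = 2 * ((y:ℝ) / 16777216) := by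
      rw [show (2:ℂ) = ((2:ℝ):ℂ) by norm_num, Complex.im_ofReal_mul]
    rw [e1, e2]
    simp only
    have e3 : 2 * ((x:ℝ) / 16777216) - ν = (x - z) / 8388608 := by rw [hzν]; ring
    have e4 : 2 * ((y:ℝ) / 16777216) - T * ν = (y - T * z) / 8388608 := by rw [hzν]; ring
    rw [e3, e4]
    have h1 : ((x:ℝ) - z) ^ 2 ≤ (9 / 8) ^ 2 := sq_le_sq' (by linarith) (by linarith)
    have h2 : ((y:ℝ) - T * z) ^ 2 ≤ (17 / 8) ^ 2 := sq_le_sq' (by linarith) (by linarith)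
    have e5 : ((x:ℝ) - z) / 8388608 * ((x - z) / 8388608) +
        (y - T * z) / 8388608 * ((y - T * z) / 8388608) =
        ((x - z) ^ 2 + (y - T * z) ^ 2) / 70368744177664 := by ring
    rw [e5, div_le_iff₀ (by norm_num)]
    norm_num at h1 h2
    norm_num
    linarith
  · -- radius inequality
    have h1 : ((R:ℝ) + 3) ^ 2 * (281474976710656 * (1 + T ^ 2)) <
        (140737488355328 * (1 - q * (1 + T ^ 2))) ^ 2 := by
      have hR0 : (0:ℝ) ≤ R := Nat.cast_nonneg _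
      calc ((R:ℝ) + 3) ^ 2 * (281474976710656 * (1 + T ^ 2)) ≤ ((R:ℝ) + 3) ^ 2 * (u:ℝ) ^ 2 := by
            gcongr
        _ = (((R:ℝ) + 3) * u) ^ 2 := by ring
        _ < (((R:ℝ) + 4) * u) ^ 2 := by
            apply pow_lt_pow_left₀ _ (by positivity) (by norm_num)
            nlinarith
        _ ≤ _ := by
            apply pow_le_pow_left₀ (by positivity) hRu
    have e1 : ν ^ 2 * (1 + T ^ 2) / 4 - q = (1 - q * (1 + T ^ 2)) ^ 2 / (4 * (1 + T ^ 2)) := by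
      have e2 : ν ^ 2 * (1 + T ^ 2) = (1 + q * (1 + T ^ 2)) ^ 2 / (1 + T ^ 2) := by
        rw [← hν1]; field_simp
      rw [e2]
      field_simp
      ring
    have h2 : ((R:ℝ) / 16777216 + 3 / 16777216) ^ 2 <
        (1 - q * (1 + T ^ 2)) ^ 2 / (4 * (1 + T ^ 2)) := by
      rw [lt_div_iff₀ (by positivity)]
      have e3 : ((R:ℝ) / 16777216 + 3 / 16777216) ^ 2 * (4 * (1 + T ^ 2)) =
          (((R:ℝ) + 3) ^ 2 * (281474976710656 * (1 + T ^ 2))) / 19807040628566084398385987584 := by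
        ring
      have e4 : (1 - q * (1 + T ^ 2)) ^ 2 =
          (140737488355328 * (1 - q * (1 + T ^ 2))) ^ 2 / 19807040628566084398385987584 := by ring
      rw [e3, e4]
      exact div_lt_div_of_pos_right h1 (by norm_num)
    linarith

/-- the rectangle -/
def InRc (X Hx Y Hy : ℕ) (e : ℂ) : Prop :=
  |2 ^ 24 * e.re - (X : ℝ)| ≤ (Hx : ℝ) ∧ |2 ^ 24 * e.im - (Y : ℝ)| ≤ (Hy : ℝ)

lemma InRc.of_sq {X Y H : ℕ} {e : ℂ} (h : InSq X Y H e) : InRc X H Y H e := h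

lemma Rec.of_rc {ε : ℂ} (hε : Adm ε) {X Hx Y Hy : ℕ} (h : InRc X Hx Y Hy (ε ^ 2)) :
    Rec ε (X - Hx) (X + Hx) (Y - Hy) (Y + Hy) := by
  obtain ⟨h1, h2⟩ := h
  rw [abs_le] at h1 h2
  have hx := e_re_nonneg hε
  have hy := e_im_nonneg hε
  have key : ∀ (a b : ℕ) (x : ℝ), 0 ≤ x → -(b:ℝ) ≤ 2 ^ 24 * x - a → ((a - b : ℕ) : ℝ) / 16777216 ≤ x := by
    intro a b x hx h
    rw [div_le_iff₀ (by norm_num)]
    rcases le_total b a with hab | hab
    · rw [Nat.cast_sub hab]; norm_num at h ⊢; linarith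
    · rw [Nat.sub_eq_zero_of_le hab]; push_cast; positivity
  refine ⟨key _ _ _ hx h1.1, ?_, key _ _ _ hy h2.1, ?_⟩
  · rw [le_div_iff₀ (by norm_num)]; push_cast; norm_num at h1 ⊢; linarith [h1.2]
  · rw [le_div_iff₀ (by norm_num)]; push_cast; norm_num at h2 ⊢; linarith [h2.2]

lemma cR_ranges {x1 x2 y1 y2 t1 t2 q1 q2 K0 K3 : ℕ}
    (h : cR x1 x2 y1 y2 t1 t2 q1 q2 K0 K3 = true) : t1 ≤ 1024 ∧ t2 ≤ 1024 ∧ q2 ≤ 4194304 := by
  unfold cR at h
  rw [gd_true, gd_true, gd_true] at h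
  obtain ⟨a1, a2, a3, _⟩ := h
  exact ⟨Nat.le_of_ble_eq_true a1, Nat.le_of_ble_eq_true a2, Nat.le_of_ble_eq_true a3⟩

/-- the closers from checked ranges -/
theorem rd3_sound {ε : ℂ} (hε : Adm ε) {x1 x2 y1 y2 t1 t2 q1 q2 K0 K3 r0 R0 r3 R3 : ℕ}
    {k : (ℕ → ℕ → ℕ → Bool) → (ℕ → ℕ → ℕ → Bool) → Bool} (hr : Rec ε x1 x2 y1 y2) (hq : q1 ≤ q2)
    (h : rd3 x1 x2 y1 y2 t1 t2 q1 q2 K0 K3 r0 R0 r3 R3 k = true) :
    ∃ f g : ℕ → ℕ → ℕ → Bool, Tr0 ε f ∧ Tr3 ε g ∧ k f g = true := by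
  unfold rd3 at h
  rw [gd_true, gd_true] at h
  obtain ⟨hR, hE, hk⟩ := h
  unfold rd4 at hk
  simp only [Nat.add_eq, Nat.mul_eq, Nat.sub_eq] at hk
  obtain ⟨B1, B2, B3, B4, B5⟩ := cR_sound hε hr hR
  obtain ⟨m1, m2, m3⟩ := cR_ranges hR
  have m4 : q1 ≤ 4194304 := hq.trans m3
  obtain ⟨C1, C2, C3, C4, C5, C6⟩ := cE_sound hE B4 B5
  refine ⟨_, _, ?_, ?_, hk⟩
  · have key : ∀ {t q : ℕ}, t ≤ 1024 → q ≤ 4194304 →
        ApD ((t:ℝ) / 1024) ((q:ℝ) / 16777216)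
          (pz (536870912 + ccx (4 * q) (dsc t)) (536870912 + ccy t (4 * q) (dsc t)))
          (((crr (4 * q) (dsc t) (dsu t) : ℕ) : ℝ) / 16777216) := by
      intro t q ht hq
      rw [pz_add]
      have e1 : ((4 * q : ℕ) : ℝ) / 67108864 = (q:ℝ) / 16777216 := by push_cast; ring
      have := (disc_sound (t := t) (qs := 4 * q) ht (by omega)).1
      rwa [e1] at this
    exact cl0_sound hε B1 (by positivity) B2 (by positivity) B3 C1 C3 C4 (key m1 m4) (key m1 m3)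
      (key m2 m4) (key m2 m3)
  · have key : ∀ {t q : ℕ}, t ≤ 1024 → q ≤ 4194304 →
        ApD ((t:ℝ) / 1024) ((q:ℝ) / 16777216 / 4)
          (-(pz (536870912 - 2 * ccx q (dsc t)) (536870912 - 2 * ccy t q (dsc t))) / 2)
          (((2 * crr q (dsc t) (dsu t) : ℕ) : ℝ) / 33554432) := by
      intro t q ht hq
      obtain ⟨h1, h2, h3⟩ := disc_sound (t := t) (qs := q) ht (by omega)
      rw [pz_sub h2 h3]
      have e1 : (q:ℝ) / 67108864 = (q:ℝ) / 16777216 / 4 := by ring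
      have e2 : ((2 * crr q (dsc t) (dsu t) : ℕ) : ℝ) / 33554432 =
          ((crr q (dsc t) (dsu t) : ℕ) : ℝ) / 16777216 := by push_cast; ring
      rw [e2]
      rwa [e1] at h1
    exact cl3_sound hε B1 (by positivity) B2 (by positivity) B3 C2 C5 C6 (key m1 m4) (key m1 m3)
      (key m2 m4) (key m2 m3)

lemma mn_le_right (a b : ℕ) : mn a b ≤ b := by
  unfold mn; simp only [Nat.sub_eq]; omega

/-- **Soundness of the closers of a rectangle.** -/
theorem rdr_sound {ε : ℂ} (hε : Adm ε) {X Hx Y Hy : ℕ}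
    {k : (ℕ → ℕ → ℕ → Bool) → (ℕ → ℕ → ℕ → Bool) → Bool} (hs : InRc X Hx Y Hy (ε ^ 2))
    (h : rdr X Hx Y Hy k = true) :
    ∃ f g : ℕ → ℕ → ℕ → Bool, Tr0 ε f ∧ Tr3 ε g ∧ k f g = true := by
  unfold rdr rd1 rd2 at h
  simp only [Nat.add_eq, Nat.sub_eq] at h
  exact rd3_sound hε (Rec.of_rc hε hs) (mn_le_right _ _) h

/-! ### closers in one call -/

/-- trap over the base `0` for a rectangle -/
noncomputable def tp0 (X Hx Y Hy A B R : ℕ) : Bool := rdr X Hx Y Hy (fun f _ => f A B R)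

/-- trap over the base `1 / 3` for a rectangle -/
noncomputable def tp3 (X Hx Y Hy A B R : ℕ) : Bool := rdr X Hx Y Hy (fun _ g => g A B R)

lemma scaled {A B R : ℕ} {Z : ℂ} (h : ‖16777216 * Z - pt A B‖ ≤ R) :
    ‖Z - pz A B‖ ≤ (R:ℝ) / 16777216 := by
  have e1 : Z - pz A B = (16777216 * Z - pt A B) / 16777216 := by unfold pz; ring
  rw [e1, norm_div, n16]
  exact div_le_div_of_nonneg_right h (by norm_num)

lemma scaled_rc {X Hx Y Hy : ℕ} {e : ℂ} (h1 : |(16777216 * e : ℂ).re - (X:ℝ)| ≤ Hx)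
    (h2 : |(16777216 * e : ℂ).im - (Y:ℝ)| ≤ Hy) : InRc X Hx Y Hy e := by
  have e1 : (16777216 * e : ℂ).re = 2 ^ 24 * e.re := by
    rw [show (16777216 : ℂ) = ((16777216:ℝ) : ℂ) by norm_num, Complex.re_ofReal_mul]; norm_num
  have e2 : (16777216 * e : ℂ).im = 2 ^ 24 * e.im := by
    rw [show (16777216 : ℂ) = ((16777216:ℝ) : ℂ) by norm_num, Complex.im_ofReal_mul]; norm_num
  rw [e1] at h1
  rw [e2] at h2
  exact ⟨h1, h2⟩

theorem tp0_sound : ∀ X Hx Y Hy A B R : ℕ, tp0 X Hx Y Hy A B R = true →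
    ∀ ε : ℂ, Adm ε → |(16777216 * ε ^ 2 : ℂ).re - (X:ℝ)| ≤ Hx →
      |(16777216 * ε ^ 2 : ℂ).im - (Y:ℝ)| ≤ Hy →
      ∀ (n : ℤ) (Z : ℂ), ‖16777216 * Z - pt A B‖ ≤ R → ¬ Alive ε n Z := by
  intro X Hx Y Hy A B R h ε hε h1 h2 n Z hZ
  obtain ⟨f, g, hf, hg, hk⟩ := rdr_sound hε (scaled_rc h1 h2) h
  exact hf A B R hk n n rfl Z (scaled hZ)

theorem tp3_sound : ∀ X Hx Y Hy A B R : ℕ, tp3 X Hx Y Hy A B R = true →
    ∀ ε : ℂ, Adm ε → |(16777216 * ε ^ 2 : ℂ).re - (X:ℝ)| ≤ Hx →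
      |(16777216 * ε ^ 2 : ℂ).im - (Y:ℝ)| ≤ Hy →
      ∀ (x : ℝ) (q : ℤ), 3 * x = q → ¬ (3 ∣ q) →
        ∀ Z : ℂ, ‖16777216 * Z - pt A B‖ ≤ R → ¬ Alive ε x Z := by
  intro X Hx Y Hy A B R h ε hε h1 h2 x q hx hq Z hZ
  obtain ⟨f, g, hf, hg, hk⟩ := rdr_sound hε (scaled_rc h1 h2) h
  exact hg A B R hk x q hx hq Z (scaled hZ)

/-! ### squares -/

/-- trap over the base `0` for a square -/
noncomputable def T0 (X Y H A B R : ℕ) : Bool := tp0 X H Y H A B R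

/-- trap over the base `1 / 3` for a square -/
noncomputable def T3 (X Y H A B R : ℕ) : Bool := tp3 X H Y H A B R

theorem T0_sound {ε : ℂ} (hε : Adm ε) {X Y H : ℕ}
    (h1 : |(16777216 * ε ^ 2 : ℂ).re - (X:ℝ)| ≤ H) (h2 : |(16777216 * ε ^ 2 : ℂ).im - (Y:ℝ)| ≤ H)
    (n : ℤ) (A B R : ℕ) (W : ℂ) (hW : ‖W - pt A B‖ ≤ R) (h : T0 X Y H A B R = true) :
    ¬ Alive ε n (W / 16777216) := by
  refine tp0_sound X H Y H A B R h ε hε h1 h2 n (W / 16777216) ?_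
  have e1 : 16777216 * (W / 16777216) = W := by ring
  rwa [e1]

theorem T3_sound {ε : ℂ} (hε : Adm ε) {X Y H : ℕ}
    (h1 : |(16777216 * ε ^ 2 : ℂ).re - (X:ℝ)| ≤ H) (h2 : |(16777216 * ε ^ 2 : ℂ).im - (Y:ℝ)| ≤ H)
    (x : ℝ) (q : ℤ) (hx : 3 * x = q) (hq : ¬ (3 ∣ q)) (A B R : ℕ) (W : ℂ) (hW : ‖W - pt A B‖ ≤ R)
    (h : T3 X Y H A B R = true) : ¬ Alive ε x (W / 16777216) := by
  refine tp3_sound X H Y H A B R h ε hε h1 h2 x q hx hq (W / 16777216) ?_
  have e1 : 16777216 * (W / 16777216) = W := by ring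
  rwa [e1]

end Pool.Agent.W_4481e3_h58.Hdr
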