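import Pool.Agent.W_4481e3_h58.FamR
import Pool.Agent.W_4481e3_h13.MLDef

/-!
The real fibre over the fixed base point `0` kills real limit families.
-/

open MeasureTheory Filter Topology Set

namespace Pool.Agent.W_MP_4481e3_an

/-- bounded real orbits of `w + a w (1 - w)` -/
lemma real_dyn {a : ℝ} (ha : 0 < a) (ha1 : a < 1) {w : ℕ → ℝ} {P : ℝ} (hb : ∀ k, |w k| ≤ P)
    (hr : ∀ k, w (k + 1) = w k + a * w k * (1 - w k)) : Tendsto w atTop (𝓝 1) ∨ w 1 = 0 := by
  -- no negative values
  have hnn : ∀ k, 0 ≤ w k := by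
    intro k
    by_contra hk
    push Not at hk
    have h1 : ∀ j, w (k + j) ≤ (1 + a) ^ j * w k := by
      intro j
      induction j with
      | zero => simp
      | succ j ih =>
        have h2 : w (k + j) < 0 := lt_of_le_of_lt ih (by
          have : 0 < (1 + a) ^ j := by positivity
          nlinarith)
        rw [← add_assoc, hr]
        have h3 : (1 + a) ^ (j + 1) * w k = (1 + a) * ((1 + a) ^ j * w k) := by rw [pow_succ]; ring
        rw [h3]
        have h4 : (1 + a) * w (k + j) ≤ (1 + a) * ((1 + a) ^ j * w k) := by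
          apply mul_le_mul_of_nonneg_left ih (by linarith)
        nlinarith [sq_nonneg (w (k + j))]
    have h5 : Tendsto (fun j : ℕ => (1 + a) ^ j * (-w k)) atTop atTop :=
      (tendsto_pow_atTop_atTop_of_one_lt (by linarith)).atTop_mul_const (by linarith)
    obtain ⟨j, hj⟩ := (h5.eventually (eventually_gt_atTop P)).exists
    have h6 := hb (k + j)
    have h7 := neg_abs_le (w (k + j))
    have h8 := h1 j
    linarith
  by_cases h1 : w 1 = 0
  · right; exact h1
  left
  have hw1 : 0 < w 1 := lt_of_le_of_ne (hnn 1) (Ne.symm h1)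
  have hup : ∀ k, a * w (k + 1) ≤ (1 + a) ^ 2 / 4 := by
    intro k
    rw [hr]
    nlinarith [sq_nonneg (2 * a * w k - (1 + a))]
  have hup1 : (1 + a) ^ 2 / 4 < 1 := by nlinarith
  set δ := min (w 1) 1 with hδ
  have hδ0 : 0 < δ := lt_min hw1 one_pos
  have hδ1 : δ ≤ 1 := min_le_right _ _
  have key : ∀ k, δ ≤ w (k + 1) ∧ |1 - w (k + 1)| ≤ (1 - a * δ) ^ k * |1 - w 1| := by
    intro k
    induction k with
    | zero => exact ⟨min_le_left _ _, by simp⟩
    | succ k ih =>
      obtain ⟨i1, i2⟩ := ih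
      have h2 : 1 - w (k + 1 + 1) = (1 - w (k + 1)) * (1 - a * w (k + 1)) := by
        rw [hr (k + 1)]; ring
      have h3 := hup k
      have h4 : 0 < 1 - a * w (k + 1) := by linarith
      have h5 : 1 - a * w (k + 1) ≤ 1 - a * δ := by nlinarith
      constructor
      · rcases le_total (w (k + 1)) 1 with h | h
        · have h6 : 1 - w (k + 1 + 1) ≤ 1 - w (k + 1) := by
            rw [h2]
            have h7 : 0 ≤ a * w (k + 1) * (1 - w (k + 1)) :=
              mul_nonneg (mul_nonneg ha.le (hnn (k + 1))) (by linarith)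
            nlinarith
          linarith
        · have h6 : 1 - w (k + 1 + 1) ≤ 0 := by
            rw [h2]
            exact mul_nonpos_of_nonpos_of_nonneg (by linarith) h4.le
          linarith
      · rw [h2, abs_mul, abs_of_pos h4, pow_succ]
        calc |1 - w (k + 1)| * (1 - a * w (k + 1)) ≤
            ((1 - a * δ) ^ k * |1 - w 1|) * (1 - a * δ) := by
              apply mul_le_mul i2 h5 h4.le
              have : 0 ≤ 1 - a * δ := by linarith
              positivity
          _ = (1 - a * δ) ^ k * (1 - a * δ) * |1 - w 1| := by ring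
  rw [← tendsto_add_atTop_iff_nat 1, tendsto_iff_dist_tendsto_zero]
  have h0 : 0 < a * δ := by positivity
  have h1' : a * δ < 1 := by nlinarith
  have hlim : Tendsto (fun k : ℕ => (1 - a * δ) ^ k * |1 - w 1|) atTop (𝓝 0) := by
    have := (tendsto_pow_atTop_nhds_zero_of_lt_one (r := 1 - a * δ) (by linarith)
      (by linarith)).mul_const |1 - w 1|
    simpa using this
  refine squeeze_zero (fun _ => dist_nonneg) (fun k => ?_) hlim
  rw [Real.dist_eq, abs_sub_comm]
  exact (key k).2

/-- real limit families do not exist -/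
theorem RFam.false {a : ℝ} (ha : 0 < a) (ha1 : a < 1) {P : ℝ} {V : ℕ → ℝ → ℂ}
    (hV : RFam (a : ℂ) P V) : False := by
  have hw : ∀ k, V k 0 = ((V k 0).re : ℂ) := by
    intro k
    apply Complex.ext
    · simp
    · simp [hV.real k]
  have hrec : ∀ k, (V (k + 1) 0).re = (V k 0).re + a * (V k 0).re * (1 - (V k 0).re) := by
    intro k
    have h1 := hV.recur k 0 (by rw [abs_zero]; positivity)
    rw [mul_zero, mul_zero, Real.cos_zero, hw k] at h1
    rw [h1]
    have : (((V k 0).re : ℂ) + (a : ℂ) * ((1:ℝ) : ℂ) * ((V k 0).re : ℂ) * (1 - ((V k 0).re : ℂ))) =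
        (((V k 0).re + a * (V k 0).re * (1 - (V k 0).re) : ℝ) : ℂ) := by
      push_cast; ring
    rw [this, Complex.ofReal_re]
  have hbd : ∀ k, |(V k 0).re| ≤ P := fun k => (Complex.abs_re_le_norm _).trans (hV.bd k)
  have hcos1 : ∀ t : ℝ, |Real.cos (2 * Real.pi * t)| ≤ 1 := fun t => Real.abs_cos_le_one _
  rcases real_dyn ha ha1 (w := fun k => (V k 0).re) hbd hrec with h | h
  · -- centre converging to `1`
    obtain ⟨R, hR, hnear⟩ := hV.near (1 / 8) (by norm_num) (by norm_num)
    obtain ⟨k₀, hk₀⟩ := (h.eventually (Metric.ball_mem_nhds (1:ℝ)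
      (show (0:ℝ) < 1 / 4 by norm_num))).exists
    rw [Real.dist_eq, abs_lt] at hk₀
    obtain ⟨K, hK0, hK⟩ := hV.lip k₀
    set τ : ℝ := 1 / 8 / (K + 1) with hτ
    have hK1 : 0 < K + 1 := by linarith
    have hτ0 : 0 < τ := by positivity
    have hτ1 : τ ≤ 1 / 8 := by
      rw [hτ, div_le_iff₀ hK1]; linarith
    have hτ2 : K * τ ≤ 1 / 4 := by
      rw [hτ, mul_div_assoc', div_le_iff₀ hK1]; linarith
    set κ : ℝ := 1 - a / 4 with hκ
    have hκ0 : 0 < κ := by rw [hκ]; linarith
    have hκ1 : κ < 1 := by rw [hκ]; linarith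
    have key : ∀ j : ℕ, ∀ t : ℝ, 0 ≤ t → t ≤ 1 / 8 → t ≤ 2 ^ j * τ →
        ‖V (k₀ + j) t - 1‖ ≤ κ ^ j * (1 / 2) := by
      intro j
      induction j with
      | zero =>
        intro t ht0 ht1 ht2
        rw [pow_zero, one_mul] at ht2
        have h2k : (1:ℝ) ≤ 2 ^ k₀ := one_le_pow₀ (by norm_num)
        have h1 := hK t 0 (by rw [abs_of_nonneg ht0]; linarith) (by rw [abs_zero]; linarith)
        rw [sub_zero, abs_of_nonneg ht0] at h1
        have h2 : K * t ≤ 1 / 4 := (mul_le_mul_of_nonneg_left ht2 hK0).trans hτ2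
        have h3 : ‖V k₀ 0 - 1‖ ≤ 1 / 4 := by
          rw [hw k₀]
          have : (((V k₀ 0).re : ℂ) - 1) = (((V k₀ 0).re - 1 : ℝ) : ℂ) := by push_cast; ring
          rw [this, Complex.norm_real, Real.norm_eq_abs, abs_le]
          constructor <;> linarith [hk₀.1, hk₀.2]
        have h4 : V k₀ t - 1 = (V k₀ t - V k₀ 0) + (V k₀ 0 - 1) := by ring
        rw [add_zero, h4, pow_zero, one_mul]
        refine (norm_add_le _ _).trans (by linarith)
      | succ j ih =>
        intro t ht0 ht1 ht2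
        have hx := ih (t / 2) (by linarith) (by linarith) (by rw [pow_succ] at ht2; linarith)
        have h2k : (1:ℝ) ≤ 2 ^ (k₀ + j) := one_le_pow₀ (by norm_num)
        have hrc := hV.recur (k₀ + j) (t / 2) (by rw [abs_of_nonneg (by linarith)]; linarith)
        rw [mul_div_cancel₀ _ (by norm_num : (2:ℝ) ≠ 0)] at hrc
        rw [← add_assoc, hrc]
        set v := V (k₀ + j) (t / 2) with hv
        set c := Real.cos (2 * Real.pi * (t / 2)) with hc
        have hc1 : 1 / 2 ≤ c := cos_ge_half (by rw [abs_of_nonneg (by linarith)]; linarith)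
        have hc2 : c ≤ 1 := Real.cos_le_one _
        have e1 : v + (a : ℂ) * (c : ℂ) * v * (1 - v) - 1 = (v - 1) * (1 - a * c * v) := by ring
        have e2 : (1 - (a : ℂ) * c * v) = ((1 - a * c : ℝ) : ℂ) - (a * c : ℝ) * (v - 1) := by
          push_cast; ring
        have hκj : κ ^ j ≤ 1 := pow_le_one₀ hκ0.le hκ1.le
        have hx2 : ‖v - 1‖ ≤ 1 / 2 := hx.trans (by linarith)
        have hac : 0 ≤ a * c := by nlinarith
        have h5 : ‖(1 - (a : ℂ) * c * v)‖ ≤ κ := by
          rw [e2]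
          refine (norm_sub_le _ _).trans ?_
          rw [norm_mul, Complex.norm_real, Complex.norm_real, Real.norm_eq_abs, Real.norm_eq_abs,
            abs_of_nonneg (by nlinarith), abs_of_nonneg hac, hκ]
          nlinarith
        rw [e1, norm_mul, pow_succ]
        calc ‖v - 1‖ * ‖(1 - (a : ℂ) * c * v)‖ ≤ (κ ^ j * (1 / 2)) * κ := by
              apply mul_le_mul hx h5 (norm_nonneg _) (by positivity)
          _ = κ ^ j * κ * (1 / 2) := by ring
    have hl1 : Tendsto (fun j : ℕ => κ ^ j * (1 / 2)) atTop (𝓝 0) := by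
      have := (tendsto_pow_atTop_nhds_zero_of_lt_one hκ0.le hκ1).mul_const (1 / 2 : ℝ)
      simpa using this
    have hl2 : Tendsto (fun j : ℕ => (2:ℝ) ^ j * τ) atTop atTop :=
      (tendsto_pow_atTop_atTop_of_one_lt one_lt_two).atTop_mul_const hτ0
    obtain ⟨j, hj1, hj2⟩ := ((hl1.eventually (Iio_mem_nhds hR)).and
      (hl2.eventually (eventually_ge_atTop (1 / 8 : ℝ)))).exists
    obtain ⟨t, ht, hRt⟩ := (hnear (k₀ + j)).2
    have h1 := key j t ht.1 ht.2 (ht.2.trans hj2)
    have h2 : κ ^ j * (1 / 2) < R := hj1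
    linarith
  · -- centre equal to `0` from time one on
    have h10 : V 1 0 = 0 := by
      rw [hw 1]
      have : (V 1 0).re = 0 := h
      rw [this]; simp
    obtain ⟨R, hR, hnear⟩ := hV.near 1 (by norm_num) le_rfl
    obtain ⟨K', hK0, hK⟩ := hV.lip 1
    set K := K' + 1 with hKd
    have hK1 : 0 < K := by linarith
    set μ : ℝ := (3 + a) / 2 with hμ
    have hμ2 : μ / 2 < 1 := by rw [hμ]; linarith
    have hμ0 : 0 < μ / 2 := by rw [hμ]; linarith
    set η : ℝ := (1 - a) / 2 / a with hη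
    have hη0 : 0 < η := div_pos (by linarith) ha
    have hη1 : a * η = (1 - a) / 2 := by rw [hη]; field_simp
    have hlK : Tendsto (fun j : ℕ => K * (μ / 2) ^ j) atTop (𝓝 0) := by
      have := (tendsto_pow_atTop_nhds_zero_of_lt_one hμ0.le hμ2).const_mul K
      simpa using this
    obtain ⟨J, hJ⟩ := (hlK.eventually (Iio_mem_nhds hη0)).exists
    have hJ' : K * (μ / 2) ^ J < η := hJ
    set τ : ℝ := η / (K * 2 ^ J) with hτ
    have hτ0 : 0 < τ := by positivity
    have hτ1 : K * (2 ^ J * τ) = η := by rw [hτ]; field_simp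
    have key : ∀ j : ℕ, ∀ t : ℝ, 0 ≤ t → t ≤ 1 → t ≤ 2 ^ j * τ →
        ‖V (1 + j) t‖ ≤ K * (μ / 2) ^ j * t := by
      intro j
      induction j with
      | zero =>
        intro t ht0 ht1 ht2
        have h1 := hK t 0 (by rw [abs_of_nonneg ht0]; linarith) (by rw [abs_zero]; norm_num)
        rw [sub_zero, abs_of_nonneg ht0, h10, sub_zero] at h1
        rw [add_zero, pow_zero, mul_one]
        refine h1.trans ?_
        apply mul_le_mul_of_nonneg_right _ ht0
        linarith
      | succ j ih =>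
        intro t ht0 ht1 ht2
        have ht3 : t / 2 ≤ 2 ^ j * τ := by rw [pow_succ] at ht2; linarith
        have hx := ih (t / 2) (by linarith) (by linarith) ht3
        have h2k : (1:ℝ) ≤ 2 ^ (1 + j) := one_le_pow₀ (by norm_num)
        have hrc := hV.recur (1 + j) (t / 2) (by rw [abs_of_nonneg (by linarith)]; linarith)
        rw [mul_div_cancel₀ _ (by norm_num : (2:ℝ) ≠ 0)] at hrc
        rw [← add_assoc, hrc]
        set v := V (1 + j) (t / 2) with hv
        set c := Real.cos (2 * Real.pi * (t / 2)) with hc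
        have hc1 : |c| ≤ 1 := Real.abs_cos_le_one _
        have e1 : v + (a : ℂ) * (c : ℂ) * v * (1 - v) = v * (1 + (a * c : ℝ) * (1 - v)) := by
          push_cast; ring
        have hvη : ‖v‖ ≤ η := by
          refine hx.trans ?_
          have hpj : 0 < (μ / 2) ^ j := by positivity
          rcases le_or_gt J j with hjJ | hjJ
          · have h3 : (μ / 2) ^ j ≤ (μ / 2) ^ J := pow_le_pow_of_le_one hμ0.le hμ2.le hjJ
            have h4 : K * (μ / 2) ^ j * (t / 2) ≤ K * (μ / 2) ^ j * 1 := by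
              apply mul_le_mul_of_nonneg_left (by linarith) (by positivity)
            have h5 : K * (μ / 2) ^ j ≤ K * (μ / 2) ^ J := mul_le_mul_of_nonneg_left h3 hK1.le
            linarith
          · have h3 : (μ / 2) ^ j ≤ 1 := pow_le_one₀ hμ0.le hμ2.le
            have h4 : (2:ℝ) ^ j ≤ 2 ^ J := pow_le_pow_right₀ (by norm_num) hjJ.le
            calc K * (μ / 2) ^ j * (t / 2) ≤ K * 1 * (2 ^ J * τ) := by
                  have h5 : t / 2 ≤ 2 ^ J * τ := ht3.trans (by gcongr)
                  gcongr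
              _ = η := by rw [mul_one, hτ1]
        have hac : ‖((a * c : ℝ) : ℂ)‖ ≤ a := by
          rw [Complex.norm_real, Real.norm_eq_abs, abs_mul, abs_of_pos ha]
          nlinarith [abs_nonneg c]
        have h5 : ‖(1 + ((a * c : ℝ) : ℂ) * (1 - v))‖ ≤ μ := by
          refine (norm_add_le _ _).trans ?_
          rw [norm_one, norm_mul]
          have h6 : ‖1 - v‖ ≤ 1 + η := by
            refine (norm_sub_le _ _).trans ?_
            rw [norm_one]; linarith
          have h7 : ‖((a * c : ℝ) : ℂ)‖ * ‖1 - v‖ ≤ a * (1 + η) :=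
            mul_le_mul hac h6 (norm_nonneg _) ha.le
          have h8 : a * (1 + η) = a + (1 - a) / 2 := by rw [mul_add, hη1, mul_one]
          rw [hμ]; linarith
        rw [e1, norm_mul]
        calc ‖v‖ * ‖(1 + ((a * c : ℝ) : ℂ) * (1 - v))‖ ≤ (K * (μ / 2) ^ j * (t / 2)) * μ := by
              apply mul_le_mul hx h5 (norm_nonneg _) (by positivity)
          _ = K * (μ / 2) ^ (j + 1) * t := by rw [pow_succ]; ring
    have hl2 : Tendsto (fun j : ℕ => (2:ℝ) ^ j * τ) atTop atTop :=
      (tendsto_pow_atTop_atTop_of_one_lt one_lt_two).atTop_mul_const hτ0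
    obtain ⟨j, hj1, hj2⟩ := ((hlK.eventually (Iio_mem_nhds hR)).and
      (hl2.eventually (eventually_ge_atTop (1 : ℝ)))).exists
    obtain ⟨t, ht, hRt⟩ := (hnear (1 + j)).1
    have h1 := key j t ht.1 ht.2 (ht.2.trans hj2)
    have h2 : K * (μ / 2) ^ j < R := hj1
    have h3 : K * (μ / 2) ^ j * t ≤ K * (μ / 2) ^ j := by
      have : 0 ≤ K * (μ / 2) ^ j := by positivity
      nlinarith [ht.2]
    linarith

/-- **Main lemma**: for a real parameter there are no non-falling parameters at which the orbit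
approaches the real axis. -/
theorem ml_of_gain {a : ℝ} (ha : 0 < a) (ha1 : a < 1) (hgain : GainStmt (a : ℂ))
    (h0 : ∫ x in (0:ℝ)..1, logf (a : ℂ) x < 0) (h1 : ∫ x in (0:ℝ)..1, logf (-(a : ℂ)) x < 0) :
    MLStmt a := by
  intro z G hGm hGF hIm
  by_contra hcon
  have hα0 : (a : ℂ) ≠ 0 := by exact_mod_cast ha.ne'
  have hα : ‖(a : ℂ)‖ < 1 := by
    rw [Complex.norm_real, Real.norm_eq_abs, abs_of_pos ha]; exact ha1
  obtain ⟨r₀, hr₀, hpos⟩ := tame_core hα0 hα hgain z hGm hGF (pos_iff_ne_zero.2 hcon)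
  obtain ⟨u, ⟨hu, hdG, hfreq⟩, -⟩ := nonempty_of_measure_ne_zero hpos.ne'
  obtain ⟨V, hV⟩ := exists_rfam hα0 hα h0 h1 hGF hIm hdG hr₀ hfreq
  exact hV.false ha ha1

end Pool.Agent.W_MP_4481e3_an
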