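import Pool.Agent.W_4481e3_q87.FamB
import Pool.Agent.W_4481e3_q59.Core

/-!
Base two, limit family over the fixed base point `0`, whose centre is bounded and real.
-/

open MeasureTheory Filter Topology Set

namespace Pool.Agent.W_MP_4481e3_an

variable {α : ℂ}

/-- one sided family over the fixed base point `0`, real and bounded at the centre -/
structure RFam (α : ℂ) (P : ℝ) (V : ℕ → ℝ → ℂ) : Prop where
  lip : ∀ k, ∃ K : ℝ, 0 ≤ K ∧ ∀ x t : ℝ, |x| ≤ 2 ^ k → |t| ≤ 2 ^ k → ‖V k x - V k t‖ ≤ K * |x - t|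
  recur : ∀ (k : ℕ) (t : ℝ), |t| ≤ 2 ^ k → V (k + 1) (2 * t) =
    V k t + α * (Real.cos (2 * Real.pi * t) : ℂ) * V k t * (1 - V k t)
  near : ∀ ℓ > (0:ℝ), ℓ ≤ 1 → ∃ R > (0:ℝ), ∀ k : ℕ,
    (∃ t ∈ Icc 0 ℓ, R ≤ ‖V k t‖) ∧ (∃ t ∈ Icc 0 ℓ, R ≤ ‖V k t - 1‖)
  bd : ∀ k, ‖V k 0‖ ≤ P
  real : ∀ k, (V k 0).im = 0

lemma badE_add_int (j : ℤ) (x : ℝ) : x + j ∈ badE 2 ↔ x ∈ badE 2 := by
  have h : ∀ (x : ℝ) (j : ℤ), x ∈ badE 2 → x + j ∈ badE 2 := by
    rintro x j ⟨k, hk⟩
    refine ⟨k, ?_⟩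
    have h1 : ((2:ℕ):ℝ) ^ k * (x + j) = ((2:ℕ):ℝ) ^ k * x + ((2 ^ k * j : ℤ) : ℝ) := by
      push_cast; ring
    rw [h1]
    show |Real.cos (2 * Real.pi * (((2:ℕ):ℝ) ^ k * x + ((2 ^ k * j : ℤ) : ℝ)))| < ek k
    have h2 : 2 * Real.pi * (((2:ℕ):ℝ) ^ k * x + ((2 ^ k * j : ℤ) : ℝ)) =
        2 * Real.pi * (((2:ℕ):ℝ) ^ k * x) + ((2 ^ k * j : ℤ) : ℝ) * (2 * Real.pi) := by ring
    rw [h2, Real.cos_add_int_mul_two_pi]
    exact hk
  constructor
  · intro hx
    have := h _ (-j) hx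
    simpa using this
  · exact h x j

/-- near the fixed point `0` the exceptional set has small density at all scales -/
lemma badE_zero : ∃ x1 > (0:ℝ), ∀ x, 0 < x → x ≤ x1 →
    volume (badE 2 ∩ Icc (0 - x) (0 + x)) ≤ ENNReal.ofReal (1 / 8 * x) := by
  obtain ⟨k₁, hk₁⟩ : ∃ k : ℕ, ek k ≤ 1 / (2 * 224) := by
    obtain ⟨k, hk⟩ : ∃ k : ℕ, (1 / 2 : ℝ) ^ k < 1 / (2 * 224) :=
      exists_pow_lt_of_lt_one (by norm_num) (by norm_num)
    refine ⟨k, ?_⟩
    have h1 := ek_half 0 k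
    rw [zero_add] at h1
    have h2 := ek_le_one 0
    have h3 : (0:ℝ) < (1 / 2) ^ k := by positivity
    nlinarith
  have hc : ∀ k, ck k 0 = 1 := by
    intro k
    unfold ck
    simp
  have he0 : ek 0 ≤ 1 / 2 := by
    unfold ek
    rw [pow_zero, mul_one, Real.exp_neg, inv_le_comm₀ (Real.exp_pos _) (by norm_num)]
    have := Real.add_one_le_exp (2:ℝ)
    norm_num at this ⊢
    linarith
  have hg : GoodB 224 k₁ 0 := by
    refine ⟨fun k _ => ?_, fun k hk => ?_⟩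
    · rw [hc]
      have := ek_anti (Nat.zero_le k)
      linarith
    · rw [hc]
      have := ek_anti hk
      linarith
  have hek := ek_pos k₁
  have hpi := Real.pi_pos
  refine ⟨ek k₁ / (2 * Real.pi * 2 ^ k₁), by positivity, fun x hx hx' => ?_⟩
  have := hg.density (by norm_num) hk₁ hx hx'
  refine this.trans (ENNReal.ofReal_le_ofReal (by linarith))

lemma cos_ge_half {x : ℝ} (h : |x| ≤ 1 / 6) : 1 / 2 ≤ Real.cos (2 * Real.pi * x) := by
  have hpi := Real.pi_pos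
  rw [← Real.cos_abs, ← Real.cos_pi_div_three]
  have h1 : |2 * Real.pi * x| ≤ Real.pi / 3 := by
    rw [abs_mul, abs_of_pos (by positivity)]
    nlinarith
  exact Real.cos_le_cos_of_nonneg_of_le_pi (abs_nonneg _) (by linarith) h1

/-- **Limit family over the fixed point** `0`. -/
theorem exists_rfam (hα0 : α ≠ 0) (hα : ‖α‖ < 1) (h0 : ∫ x in (0:ℝ)..1, logf α x < 0)
    (h1 : ∫ x in (0:ℝ)..1, logf (-α) x < 0) {z : ℂ} {G : Set ℝ} (hGF : ∀ v ∈ G, v ∉ Fall α 2 z)
    (hIm : ∀ ρ η : ℝ, 0 < η → ∃ N : ℕ, ∀ n ≥ N, ∀ v ∈ G,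
      1 / 2 ≤ |Real.cos (2 * Real.pi * (2 ^ n * v))| → ‖O α 2 n v z‖ ≤ ρ → |(O α 2 n v z).im| ≤ η)
    {u : ℝ} (hdG : DensOf G u) {r1 : ℝ} (hr1 : 0 < r1)
    (hfreq1 : ∃ᶠ n in (atTop : Filter ℕ), Tame α (leafV α z u n) r1) :
    ∃ V : ℕ → ℝ → ℂ, RFam α (Rp α) V := by
  have hd : ∀ T > (0:ℝ), ∀ δ > (0:ℝ), ∃ n₀ : ℕ, ∀ n ≥ n₀,
      volume (Fall α 2 z ∩ Metric.closedBall u (T / 2 ^ n)) ≤ ENNReal.ofReal (δ / 2 ^ n) := by
    intro T hT δ hδ
    obtain ⟨n₀, hn₀⟩ := hdG T hT δ hδ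
    refine ⟨n₀, fun n hn => (measure_mono ?_).trans (hn₀ n hn)⟩
    apply inter_subset_inter_left
    intro v hv hvG
    exact hGF v hvG hv
  set r0 : ℝ := min r1 1 with hr0def
  have hr0 : 0 < r0 := lt_min hr1 one_pos
  have hr01 : r0 ≤ 1 := min_le_right _ _
  have hfreq : ∃ᶠ n in (atTop : Filter ℕ), Tame α (leafV α z u n) r0 :=
    hfreq1.mono fun n h => h.mono (min_le_left _ _)
  have hαp : 0 < ‖α‖ := norm_pos_iff.2 hα0
  obtain ⟨ρD, hρD1, hD⟩ := dens_exists hα0 hd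
  obtain ⟨A, hA0, hA⟩ := growthW hα.le hD hρD1 hr0 hr01
  have hne : NeBot (atTop ⊓ 𝓟 {n : ℕ | Tame α (leafV α z u n) r0}) :=
    frequently_iff_neBot.1 hfreq
  set U : Ultrafilter ℕ := Ultrafilter.of (atTop ⊓ 𝓟 {n : ℕ | Tame α (leafV α z u n) r0}) with hU
  have hUle : (U : Filter ℕ) ≤ atTop := (Ultrafilter.of_le _).trans inf_le_left
  have hUT : ∀ᶠ n in (U : Filter ℕ), Tame α (leafV α z u n) r0 :=
    le_principal_iff.1 ((Ultrafilter.of_le _).trans inf_le_right)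
  -- the limit base point
  obtain ⟨x0, -, hx0⟩ := (isCompact_Icc (a := (0:ℝ)) (b := 1)).ultrafilter_le_nhds
    (U.map (fun n : ℕ => Int.fract ((2:ℝ) ^ n * u))) (by
      rw [le_principal_iff]
      show (fun n : ℕ => Int.fract ((2:ℝ) ^ n * u)) ⁻¹' _ ∈ U
      filter_upwards with n
      exact ⟨Int.fract_nonneg _, (Int.fract_lt_one _).le⟩)
  have hx0t : Tendsto (fun n : ℕ => Int.fract ((2:ℝ) ^ n * u)) U (𝓝 x0) := hx0
  -- the point s
  obtain ⟨m, hm2⟩ : ∃ m : ℕ, 2 / r0 < 2 ^ m := pow_unbounded_of_one_lt _ (by norm_num)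
  have hpm : (0:ℝ) < 2 ^ m := by positivity
  rw [div_lt_iff₀ hr0] at hm2
  set q : ℤ := round ((2:ℝ) ^ m * x0) with hq
  set s : ℝ := q / 2 ^ m - x0 with hs
  have hs1 : 2 ^ m * (x0 + s) = q := by
    rw [hs]; field_simp; ring
  have hs2 : |s| ≤ r0 / 4 := by
    have h2 : 2 ^ m * s = -((2:ℝ) ^ m * x0 - q) := by
      rw [hs]; field_simp; ring
    have h3 := abs_sub_round ((2:ℝ) ^ m * x0)
    rw [← hq, ← abs_neg, ← h2, abs_mul, abs_of_pos hpm] at h3
    have h4 : 2 ^ m * |s| ≤ 2 ^ m * (r0 / 4) := by linarith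
    exact le_of_mul_le_mul_left h4 hpm
  -- windows
  have hwin : ∀ k : ℕ, (2:ℝ) ^ k ≤ r0 / 2 * 2 ^ (m + k) := by
    intro k
    rw [pow_add]
    have : (0:ℝ) < 2 ^ k := by positivity
    nlinarith
  have hpack : ∀ k : ℕ, ∃ K : ℝ, 0 ≤ K ∧ (∀ᶠ n in (U : Filter ℕ), ∀ x t,
        |x| ≤ r0 / 2 * 2 ^ (m + k) → |t| ≤ r0 / 2 * 2 ^ (m + k) →
        ‖famF α z u s (m + k) n x - famF α z u s (m + k) n t‖ ≤ K * |x - t|) ∧ ∃ G : ℝ → ℂ,
      (∀ t, |t| ≤ r0 / 2 * 2 ^ (m + k) →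
        Tendsto (fun n => famF α z u s (m + k) n t) U (𝓝 (G t))) ∧
      (∀ x t, |x| ≤ r0 / 2 * 2 ^ (m + k) → |t| ≤ r0 / 2 * 2 ^ (m + k) →
        ‖G x - G t‖ ≤ K * |x - t|) ∧
      (∀ (a b R : ℝ) (p : ℂ), -(r0 / 2 * 2 ^ (m + k)) ≤ a → b ≤ r0 / 2 * 2 ^ (m + k) →
        (∀ᶠ n in (U : Filter ℕ), ∃ t ∈ Icc a b, R ≤ ‖famF α z u s (m + k) n t - p‖) →
        ∃ t ∈ Icc a b, R ≤ ‖G t - p‖) := by
    intro k
    obtain ⟨K, hK0, hK⟩ := famF_lip hα.le hr0 hr01 z u s hs2 (m + k)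
    obtain ⟨N0, hN0⟩ := hA (m + k)
    have hb : ∀ᶠ n in (U : Filter ℕ), ∀ t, |t| ≤ r0 / 2 * 2 ^ (m + k) →
        ‖famF α z u s (m + k) n t‖ ≤ Real.exp (A * (31 / 20) ^ (m + k)) := by
      filter_upwards [hUle (eventually_ge_atTop N0), hUT] with n hn hn2 t ht
      exact hN0 n hn hn2 _ (famF_arg hs2 ht)
    have hl : ∀ᶠ n in (U : Filter ℕ), ∀ x t, |x| ≤ r0 / 2 * 2 ^ (m + k) →
        |t| ≤ r0 / 2 * 2 ^ (m + k) →
        ‖famF α z u s (m + k) n x - famF α z u s (m + k) n t‖ ≤ K * |x - t| := by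
      filter_upwards [hUT] with n hn x t hx ht
      exact hK n hn x t hx ht
    obtain ⟨G, g1, g2, g3⟩ := fam_pack U (by positivity) hK0 hb hl
    exact ⟨K, hK0, hl, G, g1, g2, g3⟩
  choose K hK0 hKl V hVt hVl hVn using hpack
  -- the recursion
  have hVr : ∀ (k : ℕ) (t : ℝ), |t| ≤ 2 ^ k → V (k + 1) (2 * t) = V k t +
      α * (Real.cos (2 * Real.pi * t) : ℂ) * V k t * (1 - V k t) := by
    intro k t ht'
    have ht := ht'.trans (hwin k)
    have e1 := hVt (k + 1) (2 * t) (by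
      rw [abs_mul, abs_of_pos (by norm_num : (0:ℝ) < 2), ← add_assoc, pow_succ]
      linarith)
    have ec : Tendsto (fun n : ℕ => (Real.cos (2 * Real.pi * (2 ^ (m + k) *
        (Int.fract (2 ^ n * u) + s) + t)) : ℂ)) U
        (𝓝 (Real.cos (2 * Real.pi * t) : ℂ)) := by
      have h3 : Real.cos (2 * Real.pi * t) =
          Real.cos (2 * Real.pi * (2 ^ (m + k) * (x0 + s) + t)) := by
        have h4 : 2 * Real.pi * (2 ^ (m + k) * (x0 + s) + t) =
            2 * Real.pi * t + ((2 ^ k * q : ℤ) : ℝ) * (2 * Real.pi) := by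
          have h5 : (2:ℝ) ^ (m + k) * (x0 + s) = 2 ^ k * q := by
            rw [← hs1, pow_add]; ring
          rw [h5]; push_cast; ring
        rw [h4, Real.cos_add_int_mul_two_pi]
      rw [h3]
      have h6 : Tendsto (fun n : ℕ => Real.cos (2 * Real.pi * (2 ^ (m + k) *
          (Int.fract (2 ^ n * u) + s) + t))) U
          (𝓝 (Real.cos (2 * Real.pi * (2 ^ (m + k) * (x0 + s) + t)))) := by
        apply (Real.continuous_cos.tendsto _).comp
        exact (((hx0t.add_const s).const_mul _).add_const t).const_mul _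
      exact (Complex.continuous_ofReal.tendsto _).comp h6
    have e2 : Tendsto (fun n : ℕ => famF α z u s (m + k) n t +
        α * (Real.cos (2 * Real.pi * (2 ^ (m + k) * (Int.fract (2 ^ n * u) + s) + t)) : ℂ) *
        famF α z u s (m + k) n t * (1 - famF α z u s (m + k) n t)) U
        (𝓝 (V k t + α * (Real.cos (2 * Real.pi * t) : ℂ) * V k t *
          (1 - V k t))) :=
      (hVt k t ht).add (((ec.const_mul _).mul (hVt k t ht)).mul ((hVt k t ht).const_sub 1))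
    refine tendsto_nhds_unique e1 (e2.congr ?_)
    intro n
    exact (famF_rec z u s (m + k) n t).symm
  -- the centre
  obtain ⟨x1, hx1, hbad⟩ := badE_zero
  have hcen : ∀ k : ℕ, ∀ η > (0:ℝ), ∀ᶠ n in (U : Filter ℕ),
      ‖famF α z u s (m + k) n 0‖ ≤ Rp α + η ∧ |(famF α z u s (m + k) n 0).im| ≤ η := by
    intro k η hη
    -- the scale
    set l : ℝ := min (min (x1 / 2) (1 / 12)) (η / 2 / (K k + 1)) with hl
    have hKp : 0 < K k + 1 := by have := hK0 k; linarith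
    have hl0 : 0 < l := lt_min (lt_min (by positivity) (by norm_num)) (by positivity)
    have hl1 : 2 * l ≤ x1 := by
      have : l ≤ x1 / 2 := (min_le_left _ _).trans (min_le_left _ _)
      linarith
    have hl2 : l ≤ 1 / 12 := (min_le_left _ _).trans (min_le_right _ _)
    have hl3 : K k * l ≤ η / 2 := by
      have h3 : l ≤ η / 2 / (K k + 1) := min_le_right _ _
      rw [le_div_iff₀ hKp] at h3
      nlinarith
    obtain ⟨N, hN⟩ := hIm (Rp α) (η / 2) (by positivity)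
    set S : ℝ := 2 ^ (m + k) * |s| with hS
    have hSp : 0 ≤ S := by positivity
    obtain ⟨n₀, hn₀⟩ := hdG (l + S) (by positivity) (l / 4) (by positivity)
    have hev0 : Tendsto (fun n : ℕ => 2 ^ (m + k) * (Int.fract ((2:ℝ) ^ n * u) - x0)) U (𝓝 0) := by
      have := (hx0t.sub_const x0).const_mul ((2:ℝ) ^ (m + k))
      simpa using this
    have hev1 : ∀ᶠ n in (U : Filter ℕ), |2 ^ (m + k) * (Int.fract ((2:ℝ) ^ n * u) - x0)| < l := by
      have := hev0.abs.eventually (Iio_mem_nhds (show |(0:ℝ)| < l by simpa using hl0))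
      exact this
    filter_upwards [hev1, hKl k, hUle (eventually_ge_atTop (max n₀ N))] with n hn1 hn2 hn3
    set ε := 2 ^ (m + k) * (Int.fract ((2:ℝ) ^ n * u) - x0) with hε
    have hnn₀ : n₀ ≤ n := (le_max_left _ _).trans hn3
    have hnN : N ≤ n := (le_max_right _ _).trans hn3
    have hp : (0:ℝ) < 2 ^ (n + (m + k)) := by positivity
    -- base point identity
    obtain ⟨J, hJ⟩ : ∃ J : ℤ, ∀ t : ℝ, (2:ℝ) ^ (n + (m + k)) * (u + (2 ^ (m + k) * s + t) /
        2 ^ (n + (m + k))) = (t + ε) + J := by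
      refine ⟨2 ^ (m + k) * ⌊(2:ℝ) ^ n * u⌋ + 2 ^ k * q, fun t => ?_⟩
      have e1 : (2:ℝ) ^ (n + (m + k)) * (u + (2 ^ (m + k) * s + t) / 2 ^ (n + (m + k))) =
          2 ^ (m + k) * (2 ^ n * u) + 2 ^ (m + k) * s + t := by
        rw [mul_add, mul_div_cancel₀ _ hp.ne', pow_add 2 n]
        ring
      have e2 : (2:ℝ) ^ n * u = Int.fract (2 ^ n * u) + (⌊(2:ℝ) ^ n * u⌋ : ℝ) := by
        rw [add_comm]; exact (Int.floor_add_fract _).symm
      have e3 : (2:ℝ) ^ (m + k) * (x0 + s) = 2 ^ k * q := by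
        rw [← hs1, pow_add]; ring
      rw [e1, hε]
      have e4 : (2:ℝ) ^ (m + k) * (2 ^ n * u) = 2 ^ (m + k) * Int.fract (2 ^ n * u) +
          2 ^ (m + k) * (⌊(2:ℝ) ^ n * u⌋ : ℝ) := by
        conv_lhs => rw [e2]
        ring
      rw [e4]
      push_cast
      linear_combination e3
    -- find a good point
    obtain ⟨t, ht, htG, htb⟩ : ∃ t ∈ Icc 0 l, u + (2 ^ (m + k) * s + t) / 2 ^ (n + (m + k)) ∈ G ∧
        t + ε ∉ badE 2 := by
      by_contra hcon
      push Not at hcon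
      have hsub : Icc 0 l ⊆ ((fun t : ℝ => (u + 2 ^ (m + k) * s / 2 ^ (n + (m + k))) +
          ((2:ℝ) ^ (n + (m + k)))⁻¹ * t) ⁻¹'
            (Gᶜ ∩ Metric.closedBall u ((l + S) / 2 ^ (n + (m + k))))) ∪
          ((fun t : ℝ => ε + 1 * t) ⁻¹' (badE 2 ∩ Icc (0 - 2 * l) (0 + 2 * l))) := by
        intro t ht
        by_cases hG : u + (2 ^ (m + k) * s + t) / 2 ^ (n + (m + k)) ∈ G
        · right
          have h3 := hcon t ht hG
          refine ⟨by show ε + 1 * t ∈ badE 2; rw [one_mul, add_comm]; exact h3, ?_⟩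
          show ε + 1 * t ∈ _
          rw [one_mul]
          rw [abs_lt] at hn1
          constructor
          · linarith [ht.1, hn1.1]
          · linarith [ht.2, hn1.2]
        · left
          have e1 : (u + 2 ^ (m + k) * s / 2 ^ (n + (m + k))) + ((2:ℝ) ^ (n + (m + k)))⁻¹ * t =
              u + (2 ^ (m + k) * s + t) / 2 ^ (n + (m + k)) := by
            field_simp; ring
          refine ⟨by
            show (u + 2 ^ (m + k) * s / 2 ^ (n + (m + k))) + ((2:ℝ) ^ (n + (m + k)))⁻¹ * t ∉ G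
            rw [e1]; exact hG, ?_⟩
          show (u + 2 ^ (m + k) * s / 2 ^ (n + (m + k))) + ((2:ℝ) ^ (n + (m + k)))⁻¹ * t ∈ _
          rw [e1, Metric.mem_closedBall, Real.dist_eq, add_sub_cancel_left, abs_div, abs_of_pos hp]
          gcongr
          refine (abs_add_le _ _).trans ?_
          rw [abs_mul, abs_of_pos (by positivity : (0:ℝ) < 2 ^ (m + k)), abs_of_nonneg ht.1]
          linarith [ht.2]
      have h8 := (measure_mono hsub).trans (measure_union_le (μ := volume) _ _)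
      rw [vol_affine _ (inv_pos.2 hp), vol_affine _ one_pos, inv_inv, inv_one, ENNReal.ofReal_one,
        one_mul, Real.volume_Icc] at h8
      have h9 : ENNReal.ofReal ((2:ℝ) ^ (n + (m + k))) *
          volume (Gᶜ ∩ Metric.closedBall u ((l + S) / 2 ^ (n + (m + k)))) ≤ ENNReal.ofReal (l / 4) := by
        refine (mul_le_mul_right (hn₀ (n + (m + k)) (by omega)) _).trans ?_
        rw [← ENNReal.ofReal_mul hp.le]
        apply ENNReal.ofReal_le_ofReal
        apply le_of_eq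
        field_simp
      have h10 := h8.trans (add_le_add h9 (hbad (2 * l) (by positivity) hl1))
      rw [← ENNReal.ofReal_add (by positivity) (by positivity),
        ENNReal.ofReal_le_ofReal_iff (by positivity)] at h10
      linarith
    -- the leaf at this point
    set v : ℝ := u + (2 ^ (m + k) * s + t) / 2 ^ (n + (m + k)) with hv
    have hbase : (2:ℝ) ^ (n + (m + k)) * v = (t + ε) + J := hJ t
    have hfam : famF α z u s (m + k) n t = O α 2 (n + (m + k)) v z := by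
      unfold famF leafV
      rw [hv]
      congr 1
      push_cast
      ring
    have hnotbad : (2:ℝ) ^ (n + (m + k)) * v ∉ badE 2 := by
      rw [hbase, badE_add_int]
      exact htb
    have hRp : ‖O α 2 (n + (m + k)) v z‖ ≤ Rp α := by
      by_contra hc
      push Not at hc
      exact hGF v htG (fall_infE hα0 hα.le (n := n + (m + k)) (by push_cast; exact hnotbad) hc.le)
    have hcos : 1 / 2 ≤ |Real.cos (2 * Real.pi * (2 ^ (n + (m + k)) * v))| := by
      rw [hbase]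
      have h2 : 2 * Real.pi * (t + ε + J) = 2 * Real.pi * (t + ε) + (J : ℝ) * (2 * Real.pi) := by ring
      rw [h2, Real.cos_add_int_mul_two_pi]
      refine le_trans (cos_ge_half ?_) (le_abs_self _)
      rw [abs_lt] at hn1
      rw [abs_le]
      constructor
      · linarith [ht.1, hn1.1]
      · linarith [ht.2, hn1.2]
    have him := hN (n + (m + k)) (by omega) v htG hcos hRp
    have hw : (0:ℝ) < 2 ^ k := by positivity
    have hlip := hn2 0 t (by rw [abs_zero]; positivity) (by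
      rw [abs_of_nonneg ht.1]
      refine le_trans ?_ (hwin k)
      have : (1:ℝ) ≤ 2 ^ k := one_le_pow₀ (by norm_num)
      linarith [ht.2])
    have hlip2 : ‖famF α z u s (m + k) n 0 - famF α z u s (m + k) n t‖ ≤ η / 2 := by
      refine hlip.trans (le_trans ?_ hl3)
      have : |0 - t| ≤ l := by
        rw [zero_sub, abs_neg, abs_of_nonneg ht.1]; exact ht.2
      exact mul_le_mul_of_nonneg_left this (hK0 k)
    rw [hfam] at hlip2
    constructor
    · have h3 := norm_sub_norm_le (famF α z u s (m + k) n 0) (O α 2 (n + (m + k)) v z)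
      linarith
    · have h3 := (Complex.abs_im_le_norm (famF α z u s (m + k) n 0 - O α 2 (n + (m + k)) v z)).trans hlip2
      rw [Complex.sub_im] at h3
      have h4 := abs_sub_abs_le_abs_sub (famF α z u s (m + k) n 0).im (O α 2 (n + (m + k)) v z).im
      linarith
  refine ⟨V, ?_, hVr, ?_, ?_, ?_⟩
  · intro k
    exact ⟨K k, hK0 k, fun x t hx ht => hVl k x t (hx.trans (hwin k)) (ht.trans (hwin k))⟩
  · intro ℓ hℓ hℓ1
    obtain ⟨R, hR, BadN, hNB⟩ := nearB_exists hα h0 h1 z hℓ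
    rw [min_eq_left hℓ1] at hNB
    refine ⟨R, hR, fun k => ?_⟩
    have hev : ∀ᶠ n in (U : Filter ℕ), ∃ t ∈ Icc 0 (0 + ℓ),
        R ≤ ‖famF α z u s (m + k) n t‖ ∧ R ≤ ‖1 - famF α z u s (m + k) n t‖ := by
      apply hUle
      set S : ℝ := 2 ^ (m + k) * |s| with hS
      have hSp : 0 ≤ S := by positivity
      obtain ⟨n₀, hn₀⟩ := hd (|(0:ℝ)| + ℓ + S) (by positivity) (ℓ / 4) (by positivity)
      refine mem_atTop_sets.2 ⟨n₀, fun n hn => ?_⟩
      have hp : (0:ℝ) < 2 ^ (n + (m + k)) := by positivity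
      obtain ⟨t, ht, h3, h4⟩ := hNB.exists_pt2 hℓ (c := u + 2 ^ (m + k) * s / 2 ^ (n + (m + k)))
        (S := S) (a := 0) (hn₀ (n + (m + k)) (by omega)) (by
          rw [add_sub_cancel_left, abs_div, abs_mul, abs_of_pos hp,
            abs_of_pos (by positivity : (0:ℝ) < 2 ^ (m + k))]) le_rfl
      refine ⟨t, ht, ?_⟩
      have e : famF α z u s (m + k) n t =
          O α 2 (n + (m + k)) (((u + 2 ^ (m + k) * s / 2 ^ (n + (m + k)) : ℝ) : ℂ) +
            t / 2 ^ (n + (m + k))) z := by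
        unfold famF leafV
        congr 1
        push_cast
        ring
      rw [e]
      exact ⟨h3, h4⟩
    have hw : -(r0 / 2 * 2 ^ (m + k)) ≤ 0 := by
      have : 0 ≤ r0 / 2 * 2 ^ (m + k) := by positivity
      linarith
    have hw2 : 0 + ℓ ≤ r0 / 2 * 2 ^ (m + k) := by
      refine le_trans ?_ (hwin k)
      have : (1:ℝ) ≤ 2 ^ k := one_le_pow₀ (by norm_num)
      linarith
    constructor
    · obtain ⟨t, ht, h⟩ := hVn k 0 (0 + ℓ) R 0 hw hw2 (by
        filter_upwards [hev] with n hn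
        obtain ⟨t, ht, h3, h4⟩ := hn
        exact ⟨t, ht, by simpa using h3⟩)
      rw [zero_add] at ht
      exact ⟨t, ht, by simpa using h⟩
    · obtain ⟨t, ht, h⟩ := hVn k 0 (0 + ℓ) R 1 hw hw2 (by
        filter_upwards [hev] with n hn
        obtain ⟨t, ht, h3, h4⟩ := hn
        exact ⟨t, ht, by rw [norm_sub_rev]; exact h4⟩)
      rw [zero_add] at ht
      exact ⟨t, ht, h⟩
  · intro k
    have h3 := hVt k 0 (by rw [abs_zero]; positivity)
    apply le_of_forall_pos_le_add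
    intro η hη
    refine le_of_tendsto h3.norm ?_
    filter_upwards [hcen k η hη] with n hn
    exact hn.1
  · intro k
    have h3 := hVt k 0 (by rw [abs_zero]; positivity)
    have h4 : Tendsto (fun n => |(famF α z u s (m + k) n 0).im|) U (𝓝 |(V k 0).im|) :=
      ((Complex.continuous_im.tendsto _).comp h3).abs
    have h5 : |(V k 0).im| ≤ 0 := by
      apply le_of_forall_pos_le_add
      intro η hη
      refine le_of_tendsto h4 ?_
      filter_upwards [hcen k η hη] with n hn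
      linarith [hn.2]
    exact abs_nonpos_iff.1 h5

end Pool.Agent.W_MP_4481e3_an
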