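import Pool.Agent.W_4481e3_q12.Ev

/-!
Header of a parameter square: traps and escape discs over the bases `0` and `1 / 3`, valid for all
parameters of the square.  Kernel version, scale `2 ^ 24`.

The square is `(X, Y, H)`: centre `X + Y i`, half side `H`.  A ball of points is `(A, B, r)`: centre
`(A - 2^29) + (B - 2^29) i`, radius `r`.  A disc is stored in the same way.
-/

namespace Pool.Agent.W_4481e3_h58.Hdr

open Pool.Agent.W_MP_4481e3_an.Ev (gd)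
open Pool.Agent.W_4481e3_q12.Ev (ds)

/-- `a || b`, `b` only if needed -/
noncomputable def oo (a b : Bool) : Bool := Bool.rec b true a

noncomputable def inD2 (R r dx dy : ℕ) : Bool :=
  gd (Nat.ble (Nat.succ r) R)
    (Nat.ble (Nat.add (Nat.mul dx dx) (Nat.mul dy dy)) (Nat.mul (Nat.sub R r) (Nat.sub R r)))

/-- the ball `(A, B, r)` lies in the disc `(P, Q, R)` -/
noncomputable def inD (P Q R A B r : ℕ) : Bool := inD2 R r (ds A P) (ds B Q)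

def outD2 (s dx dy : ℕ) : Bool := Nat.ble (Nat.mul s s) (Nat.add (Nat.mul dx dx) (Nat.mul dy dy))

/-- the ball `(A, B, r)` lies outside of the open disc `(P, Q, R)` -/
def outD (P Q R A B r : ℕ) : Bool := outD2 (Nat.add R r) (ds A P) (ds B Q)

/-- the ball lies in the four discs -/
noncomputable def in4 (P1 Q1 R1 P2 Q2 R2 P3 Q3 R3 P4 Q4 R4 A B r : ℕ) : Bool :=
  gd (inD P1 Q1 R1 A B r) (gd (inD P2 Q2 R2 A B r) (gd (inD P3 Q3 R3 A B r) (inD P4 Q4 R4 A B r)))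

/-- closer over the base `0`: disc `r0`, escape `R0`, four corner discs -/
noncomputable def cl0 (r0 R0 P1 Q1 R1 P2 Q2 R2 P3 Q3 R3 P4 Q4 R4 A B r : ℕ) : Bool :=
  oo (inD 545259520 536870912 r0 A B r) (oo (outD 545259520 536870912 R0 A B r)
    (in4 P1 Q1 R1 P2 Q2 R2 P3 Q3 R3 P4 Q4 R4 A B r))

/-- closer over the base `1 / 3` -/
noncomputable def cl3 (r3 R3 P1 Q1 R1 P2 Q2 R2 P3 Q3 S3 P4 Q4 R4 A B r : ℕ) : Bool :=
  oo (inD 520093696 536870912 r3 A B r) (oo (outD 520093696 536870912 R3 A B r)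
    (in4 P1 Q1 R1 P2 Q2 R2 P3 Q3 S3 P4 Q4 R4 A B r))

/-! ### check of the numbers -/

noncomputable def cA2 (t qs cx cy ρ G D M : ℕ) : Bool :=
  gd (Nat.ble cx 16777216) (gd (Nat.ble cy 16777216)
  (gd (Nat.ble (Nat.add (Nat.add (Nat.mul (Nat.mul 1024 D)
      (Nat.add (Nat.mul 16777216 qs) (Nat.mul 4
        (Nat.add (Nat.add (Nat.mul cx cx) (Nat.mul cy cy)) (Nat.mul ρ ρ)))))
      (Nat.mul (Nat.mul 4294967296 ρ) G)) 1)
      (Nat.mul (Nat.add (Nat.mul 1024 cx) (Nat.mul t cy)) M))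
    (Nat.ble (Nat.add (Nat.pow (Nat.mul 1024 (ds M (Nat.mul (Nat.mul 8 cx) D))) 2)
      (Nat.pow (ds (Nat.mul t M) (Nat.mul (Nat.mul 8192 cy) D)) 2))
      (Nat.pow (Nat.mul 4294967296 G) 2))))

/-- corner disc: `T = t / 2^10`, `q = qs / 2^26`, centre `(cx + cy i) / 2^24`, radius `ρ / 2^24` -/
noncomputable def cA (t qs cx cy ρ G : ℕ) : Bool :=
  cA2 t qs cx cy ρ G (Nat.add 1048576 (Nat.mul t t))
    (Nat.add 70368744177664 (Nat.mul qs (Nat.add 1048576 (Nat.mul t t))))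

/-- ranges of the parameters -/
noncomputable def cR (x1 x2 y1 y2 t1 t2 q1 q2 K0 K3 : ℕ) : Bool :=
  gd (Nat.ble t1 1024) (gd (Nat.ble t2 1024) (gd (Nat.ble q2 4194304)
  (gd (Nat.ble (Nat.mul (Nat.mul 2048 t1) x2) (Nat.mul y1 (Nat.sub 1048576 (Nat.mul t1 t1))))
  (gd (oo (Nat.ble 1024 t2)
    (Nat.ble (Nat.mul y2 (Nat.sub 1048576 (Nat.mul t2 t2))) (Nat.mul (Nat.mul 2048 t2) x1)))
  (gd (Nat.ble (Nat.mul q1 q1) (Nat.add (Nat.mul x1 x1) (Nat.mul y1 y1)))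
  (gd (oo (Nat.ble 4194304 q2)
    (Nat.ble (Nat.add (Nat.mul x2 x2) (Nat.mul y2 y2)) (Nat.mul q2 q2)))
  (gd (Nat.ble (Nat.add (Nat.pow (ds x1 4194304) 2) (Nat.mul y2 y2)) (Nat.mul K0 K0))
  (gd (Nat.ble (Nat.add (Nat.pow (ds x2 4194304) 2) (Nat.mul y2 y2)) (Nat.mul K0 K0))
  (gd (Nat.ble x1 16777216)
    (Nat.ble (Nat.add (Nat.pow (Nat.sub 16777216 x1) 2) (Nat.mul y2 y2)) (Nat.mul K3 K3)))))))))))

/-- trap and escape radii; `K3` bounds `|1 - e|`, `r3`, `R3` are radii in the coordinate `Z` -/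
noncomputable def cE (K0 K3 r0 R0 r3 R3 : ℕ) : Bool :=
  gd (oo (Nat.ble r0 0) (Nat.ble (Nat.succ (Nat.add (Nat.mul r0 r0) (Nat.mul 16777216 K0)))
    (Nat.mul 16777216 r0)))
  (gd (oo (Nat.ble r3 0) (Nat.ble (Nat.succ (Nat.add (Nat.mul r3 r3) (Nat.mul 16777216 K3)))
    (Nat.mul 33554432 r3)))
  (gd (Nat.ble 8388608 R0) (gd (Nat.ble 16777216 R3)
  (gd (Nat.ble (Nat.succ (Nat.add (Nat.mul 16777216 R0) (Nat.mul 16777216 K0))) (Nat.mul R0 R0))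
    (Nat.ble (Nat.succ (Nat.add (Nat.mul 33554432 R3) (Nat.mul 16777216 K3))) (Nat.mul R3 R3))))))

/-- four corner discs, `q1`, `q2` at scale `2^26` -/
noncomputable def c4 (t1 t2 q1 q2 a1 b1 R1 G1 a2 b2 R2 G2 a3 b3 R3 G3 a4 b4 R4 G4 : ℕ) : Bool :=
  gd (cA t1 q1 a1 b1 R1 G1) (gd (cA t1 q2 a2 b2 R2 G2) (gd (cA t2 q1 a3 b3 R3 G3)
    (cA t2 q2 a4 b4 R4 G4)))

/-- **header**: check of the numbers for the square `(X, Y, H)`, the continuation gets the two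
closers -/
noncomputable def hdr (X Y H t1 t2 q1 q2 K0 K3 r0 R0 r3 R3
    a1 b1 R1 G1 a2 b2 R2 G2 a3 b3 R3' G3 a4 b4 R4 G4
    c1 d1 S1 F1 c2 d2 S2 F2 c3 d3 S3 F3 c4' d4 S4 F4 : ℕ)
    (k : (ℕ → ℕ → ℕ → Bool) → (ℕ → ℕ → ℕ → Bool) → Bool) : Bool :=
  gd (cR (Nat.sub X H) (Nat.add X H) (Nat.sub Y H) (Nat.add Y H) t1 t2 q1 q2 K0 K3)
  (gd (cE K0 K3 r0 R0 r3 R3)
  (gd (c4 t1 t2 (Nat.mul 4 q1) (Nat.mul 4 q2) a1 b1 R1 G1 a2 b2 R2 G2 a3 b3 R3' G3 a4 b4 R4 G4)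
  (gd (c4 t1 t2 q1 q2 c1 d1 S1 F1 c2 d2 S2 F2 c3 d3 S3 F3 c4' d4 S4 F4)
    (k (cl0 r0 R0 (Nat.add 536870912 a1) (Nat.add 536870912 b1) R1
        (Nat.add 536870912 a2) (Nat.add 536870912 b2) R2
        (Nat.add 536870912 a3) (Nat.add 536870912 b3) R3'
        (Nat.add 536870912 a4) (Nat.add 536870912 b4) R4)
      (cl3 r3 R3 (Nat.sub 536870912 (Nat.mul 2 c1)) (Nat.sub 536870912 (Nat.mul 2 d1)) (Nat.mul 2 S1)
        (Nat.sub 536870912 (Nat.mul 2 c2)) (Nat.sub 536870912 (Nat.mul 2 d2)) (Nat.mul 2 S2)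
        (Nat.sub 536870912 (Nat.mul 2 c3)) (Nat.sub 536870912 (Nat.mul 2 d3)) (Nat.mul 2 S3)
        (Nat.sub 536870912 (Nat.mul 2 c4')) (Nat.sub 536870912 (Nat.mul 2 d4)) (Nat.mul 2 S4))))))

end Pool.Agent.W_4481e3_h58.Hdr
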