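import Pool.Agent.W_4481e3_h58.HdrK

/-!
Traps and escape discs over the bases `0` and `1 / 3` for a rectangle of parameters, computed from
the rectangle (no data).  Kernel version.

The rectangle is `|2^24 Re e - X| ≤ Hx`, `|2^24 Im e - Y| ≤ Hy`.
-/

namespace Pool.Agent.W_4481e3_h58.Hdr

open Pool.Agent.W_MP_4481e3_an.Ev (gd nrm1)
open Pool.Agent.W_4481e3_q12.Ev (ds nrm)

/-- upper bound of the root of `a ^ 2 + b ^ 2` -/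
def rtu (a b : ℕ) : ℕ := nrm a b (Nat.add (Nat.mul a a) (Nat.mul b b))

/-- upper bound of the root of `N`, three Newton steps from `g` -/
def rt3 (N g : ℕ) : ℕ := nrm1 N (nrm1 N (nrm1 N (Nat.succ g)))

/-- one corner disc: `T = t / 2^10`, `q = qs / 2^26`, `D = 2^20 + t^2`, `u ≥ 2^24 sqrt (1 + T^2)`;
centre `(cx, cy)`, radius -/
def ccx (qs D : ℕ) : ℕ := Nat.div (Nat.add (Nat.div 70368744177664 D) qs) 8
def ccy (t qs D : ℕ) : ℕ := Nat.div (Nat.mul t (ccx qs D)) 1024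
def crr (qs D u : ℕ) : ℕ :=
  Nat.sub (Nat.div (Nat.mul 2 (Nat.sub 70368744177664 (Nat.mul qs D))) u) 4

def dsc (t : ℕ) : ℕ := Nat.add 1048576 (Nat.mul t t)
def dsu (t : ℕ) : ℕ := rt3 (Nat.mul 268435456 (dsc t)) (Nat.add 16777216 (Nat.mul 8 (Nat.mul t t)))

/-- the two closers from `t1, t2, q1, q2` and the radii -/
noncomputable def rd4 (t1 t2 q1 q2 r0 R0 r3 R3 D1 D2 u1 u2 : ℕ)
    (k : (ℕ → ℕ → ℕ → Bool) → (ℕ → ℕ → ℕ → Bool) → Bool) : Bool :=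
  k (cl0 r0 R0
      (Nat.add 536870912 (ccx (Nat.mul 4 q1) D1)) (Nat.add 536870912 (ccy t1 (Nat.mul 4 q1) D1))
      (crr (Nat.mul 4 q1) D1 u1)
      (Nat.add 536870912 (ccx (Nat.mul 4 q2) D1)) (Nat.add 536870912 (ccy t1 (Nat.mul 4 q2) D1))
      (crr (Nat.mul 4 q2) D1 u1)
      (Nat.add 536870912 (ccx (Nat.mul 4 q1) D2)) (Nat.add 536870912 (ccy t2 (Nat.mul 4 q1) D2))
      (crr (Nat.mul 4 q1) D2 u2)
      (Nat.add 536870912 (ccx (Nat.mul 4 q2) D2)) (Nat.add 536870912 (ccy t2 (Nat.mul 4 q2) D2))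
      (crr (Nat.mul 4 q2) D2 u2))
    (cl3 r3 R3
      (Nat.sub 536870912 (Nat.mul 2 (ccx q1 D1))) (Nat.sub 536870912 (Nat.mul 2 (ccy t1 q1 D1)))
      (Nat.mul 2 (crr q1 D1 u1))
      (Nat.sub 536870912 (Nat.mul 2 (ccx q2 D1))) (Nat.sub 536870912 (Nat.mul 2 (ccy t1 q2 D1)))
      (Nat.mul 2 (crr q2 D1 u1))
      (Nat.sub 536870912 (Nat.mul 2 (ccx q1 D2))) (Nat.sub 536870912 (Nat.mul 2 (ccy t2 q1 D2)))
      (Nat.mul 2 (crr q1 D2 u2))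
      (Nat.sub 536870912 (Nat.mul 2 (ccx q2 D2))) (Nat.sub 536870912 (Nat.mul 2 (ccy t2 q2 D2)))
      (Nat.mul 2 (crr q2 D2 u2)))

/-- guards -/
noncomputable def rd3 (x1 x2 y1 y2 t1 t2 q1 q2 K0 K3 r0 R0 r3 R3 : ℕ)
    (k : (ℕ → ℕ → ℕ → Bool) → (ℕ → ℕ → ℕ → Bool) → Bool) : Bool :=
  gd (cR x1 x2 y1 y2 t1 t2 q1 q2 K0 K3) (gd (cE K0 K3 r0 R0 r3 R3)
    (rd4 t1 t2 q1 q2 r0 R0 r3 R3 (dsc t1) (dsc t2) (dsu t1) (dsu t2) k))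

/-- lower bound of the root of `N` -/
def rtl (N u : ℕ) : ℕ := Nat.div N u

/-- radius of the disc trap over the base `0` -/
def rr0 (K0 : ℕ) : ℕ :=
  Nat.sub (Nat.div (Nat.add 16777216 (rtl (Nat.mul 16777216 (Nat.sub 16777216 (Nat.mul 4 K0)))
    (rt3 (Nat.mul 16777216 (Nat.sub 16777216 (Nat.mul 4 K0))) (Nat.sub 16777216 (Nat.mul 2 K0))))) 2) 3

/-- radius of the disc trap over the base `1 / 3` -/
def rr3 (K3 : ℕ) : ℕ :=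
  Nat.sub (Nat.add 16777216 (rtl (Nat.mul 16777216 (Nat.sub 16777216 K3))
    (rt3 (Nat.mul 16777216 (Nat.sub 16777216 K3)) (Nat.sub 16777216 (Nat.div K3 2))))) 3

def RR0 (K0 : ℕ) : ℕ :=
  Nat.add (Nat.div (Nat.add 16777216 (rt3 (Nat.mul 16777216 (Nat.add 16777216 (Nat.mul 4 K0)))
    (Nat.add 16777216 (Nat.mul 2 K0)))) 2) 2

def RR3 (K3 : ℕ) : ℕ :=
  Nat.add (Nat.add 16777216 (rt3 (Nat.mul 16777216 (Nat.add 16777216 K3))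
    (Nat.add 16777216 (Nat.div K3 2)))) 2

/-- `r` if it satisfies the trap inequality, else `0` -/
noncomputable def sel0 (K0 r : ℕ) : ℕ :=
  Bool.rec 0 r (Nat.ble (Nat.succ (Nat.add (Nat.mul r r) (Nat.mul 16777216 K0))) (Nat.mul 16777216 r))
noncomputable def sel3 (K3 r : ℕ) : ℕ :=
  Bool.rec 0 r (Nat.ble (Nat.succ (Nat.add (Nat.mul r r) (Nat.mul 16777216 K3))) (Nat.mul 33554432 r))

def mx (a b : ℕ) : ℕ := Nat.add a (Nat.sub b a)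
def mn (a b : ℕ) : ℕ := Nat.sub a (Nat.sub a b)

/-- ranges from `x1 x2 y1 y2` and two upper roots -/
noncomputable def rd2 (x1 x2 y1 y2 n11 n12 n21 n22 K0 K3 : ℕ)
    (k : (ℕ → ℕ → ℕ → Bool) → (ℕ → ℕ → ℕ → Bool) → Bool) : Bool :=
  rd3 x1 x2 y1 y2
    (Nat.div (Nat.mul 1024 y1) (Nat.add n21 x2))
    (mn (Nat.succ (Nat.div (Nat.mul 1024 y2)
      (Nat.add (rtl (Nat.add (Nat.mul x1 x1) (Nat.mul y2 y2)) n12) x1))) 1024)
    (mn (rtl (Nat.add (Nat.mul x1 x1) (Nat.mul y1 y1)) n11) (mn n22 4194304)) (mn n22 4194304) K0 K3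
    (sel0 K0 (rr0 K0)) (RR0 K0) (sel3 K3 (rr3 K3)) (RR3 K3) k

noncomputable def rd1 (x1 x2 y1 y2 : ℕ)
    (k : (ℕ → ℕ → ℕ → Bool) → (ℕ → ℕ → ℕ → Bool) → Bool) : Bool :=
  rd2 x1 x2 y1 y2 (rtu x1 y1) (rtu x1 y2) (rtu x2 y1) (rtu x2 y2)
    (mx (rtu (ds x1 4194304) y2) (rtu (ds x2 4194304) y2)) (rtu (Nat.sub 16777216 x1) y2) k

/-- **closers of a rectangle** -/
noncomputable def rdr (X Hx Y Hy : ℕ) (k : (ℕ → ℕ → ℕ → Bool) → (ℕ → ℕ → ℕ → Bool) → Bool) : Bool :=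
  rd1 (Nat.sub X Hx) (Nat.add X Hx) (Nat.sub Y Hy) (Nat.add Y Hy) k

end Pool.Agent.W_4481e3_h58.Hdr
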