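import Pool.Agent.W_4481e3_h58.DynR
import Pool.Agent.W_4481e3_h13.LogNeg
import Pool.Agent.W_4481e3_h13.Dense
import Pool.Agent.W_MP_4481e3_an.FatouPart

/-!
Base two, real parameter: the random Fatou set is the combined basin.
-/

open MeasureTheory Filter Topology Set

namespace Pool.Agent.W_MP_4481e3_an

lemma fall_symm {α : ℂ} {L : ℕ} {u : ℝ} {z : ℂ} (h : u ∈ Fall α L z) : u ∈ Fall (-α) L (1 - z) := by
  have e : (fun n => O (-α) L n u (1 - z)) = fun n => 1 - O α L n u z := by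
    funext n; exact (O_symm n _ _).symm
  rcases h with h | h | h
  · right; left
    rw [e]
    simpa using h.const_sub 1
  · left
    rw [e]
    simpa using h.const_sub 1
  · right; right
    have e2 : (fun n => ‖O (-α) L n u (1 - z)‖) = fun n => ‖1 - O α L n u z‖ := by
      funext n; rw [O_symm]
    rw [e2]
    apply tendsto_atTop_mono (f := fun n => ‖O α L n u z‖ - 1)
    · intro n
      have h1 := norm_sub_norm_le (O α L n u z) 1
      rw [norm_sub_rev, norm_one] at h1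
      exact h1
    · exact tendsto_atTop_add_const_right _ _ h

/-- density of the falling points, real parameter of either sign -/
lemma real_dense_two {a : ℝ} (ha0 : 0 < |a|) (ha : |a| < 1) (hgain : GainStmt ((|a| : ℝ) : ℂ)) :
    ∀ᵐ u : ℝ, Dense {z : ℂ | u ∈ Fall (a : ℂ) 2 z} := by
  have h0 : ∫ x in (0:ℝ)..1, logf ((|a| : ℝ) : ℂ) x < 0 :=
    logf_int_neg (by rw [abs_abs]; exact ha0) (by rw [abs_abs]; exact ha)
  have h1 : ∫ x in (0:ℝ)..1, logf (-((|a| : ℝ) : ℂ)) x < 0 := by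
    have := logf_int_neg (a := -|a|) (by rw [abs_neg, abs_abs]; exact ha0)
      (by rw [abs_neg, abs_abs]; exact ha)
    rwa [Complex.ofReal_neg] at this
  have key := real_dense ha0 (ml_of_gain ha0 ha hgain h0 h1)
  rcases le_or_gt 0 a with h | h
  · rwa [abs_of_nonneg h] at key
  · filter_upwards [key] with u hu
    rw [abs_of_neg h, Complex.ofReal_neg] at hu
    have hsub : (fun z : ℂ => 1 - z) '' {z : ℂ | u ∈ Fall (-(a : ℂ)) 2 z} ⊆
        {z : ℂ | u ∈ Fall (a : ℂ) 2 z} := by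
      rintro _ ⟨z, hz, rfl⟩
      have := fall_symm (α := -(a : ℂ)) hz
      rwa [neg_neg] at this
    refine Dense.mono hsub ?_
    apply DenseRange.dense_image (f := fun z : ℂ => 1 - z) ?_ (by fun_prop) hu
    intro w
    apply subset_closure
    exact ⟨1 - w, by simp⟩

/-- **Base two, real parameter.** -/
theorem main_two_real {a : ℝ} (ha0 : 0 < |a|) (ha : |a| < 1) (hgain : GainStmt ((|a| : ℝ) : ℂ)) :
    ∀ᵐ u ∂(volume.restrict (Ico (0:ℝ) 1)), randomFatou (a : ℂ) 2 u = combinedBasin (a : ℂ) 2 u := by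
  have hn : ‖(a : ℂ)‖ = |a| := by rw [Complex.norm_real, Real.norm_eq_abs]
  have hα0 : (a : ℂ) ≠ 0 := by
    rw [← norm_pos_iff, hn]; exact ha0
  have hα : ‖(a : ℂ)‖ < 1 := by rw [hn]; exact ha
  have hα' : ‖-(a : ℂ)‖ < 1 := by rw [norm_neg]; exact hα
  have h0 : ∫ x in (0:ℝ)..1, logf (a : ℂ) x < 0 := logf_int_neg ha0 ha
  have h1 : ∫ x in (0:ℝ)..1, logf (-(a : ℂ)) x < 0 := by
    have := logf_int_neg (a := -a) (by rw [abs_neg]; exact ha0) (by rw [abs_neg]; exact ha)
    rwa [Complex.ofReal_neg] at this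
  obtain ⟨c₀, hc₀, hF₀⟩ := logf_ae (L := 2) hα le_rfl h0
  obtain ⟨c₁, hc₁, hF₁⟩ := logf_ae (L := 2) hα' le_rfl h1
  rw [Measure.restrict_congr_set (Ico_ae_eq_Ioc (μ := volume) (a := (0:ℝ)) (b := 1))]
  have hLpos : 0 < 2 := by norm_num
  filter_upwards [hF₀.recur (L := 2) hLpos, hF₁.recur (L := 2) hLpos,
    (fam_inf (L := 2) hLpos).recur (L := 2) hLpos,
    ae_restrict_of_ae (real_dense_two ha0 ha hgain)] with u hu0 hu1 hui huD
  obtain ⟨j, hj⟩ := hui
  exact fatou_eq_basin (rec_zero hα hc₀ hu0) (rec_one hα hc₁ hu1)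
    (rec_inf hα0 (θ := 1 / ((j:ℝ) + 1)) (by positivity) hj) huD (fun z hz => hz)

end Pool.Agent.W_MP_4481e3_an
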